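import Pool.Agent.MP_c69980_ag.J1.Spec

/-!
A discrete cocompact subgroup of the plane is a period lattice.
-/

set_option autoImplicit false

namespace Pool.Agent.MP_c69980_ag.J1

open Metric Filter Topology Set

theorem bas : BasStmt := by
  rintro Λ ⟨ε, ε0, hε⟩ ⟨R, hR⟩
  let L : Submodule ℤ ℂ := AddSubgroup.toIntSubmodule Λ
  have : DiscreteTopology L := discreteTopology_of_isOpen_singleton_zero (by
    have e : ({0} : Set L) = Subtype.val ⁻¹' ball 0 ε := by
      ext x
      exact ⟨fun h => by simpa [mem_singleton_iff.1 h] using ε0,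
        fun h => Subtype.ext (hε x x.2 (mem_ball_zero_iff.1 h))⟩
    rw [e]
    exact isOpen_ball.preimage continuous_subtype_val)
  have : IsZLattice ℝ L := ⟨by
    refine eq_top_iff.2 fun s _ => (Submodule.span ℝ (L : Set ℂ)).closed_of_finiteDimensional
      |>.closure_subset (Metric.mem_closure_iff.2 fun δ δ0 => ?_)
    obtain ⟨x, hx, h⟩ := hR (((|R| + 1) / δ : ℝ) • s)
    have p : 0 < (|R| + 1) / δ := by positivity
    refine ⟨((|R| + 1) / δ)⁻¹ • x, Submodule.smul_mem _ _ (Submodule.subset_span hx), ?_⟩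
    rw [dist_eq_norm, ← inv_smul_smul₀ p.ne' s, ← smul_sub, norm_smul, Real.norm_of_nonneg
      (inv_nonneg.2 p.le), inv_mul_lt_iff₀ p, div_mul_cancel₀ _ δ0.ne']
    linarith [le_abs_self R]⟩
  have := ZLattice.module_free ℝ L
  have := ZLattice.module_finite ℝ L
  let b := Module.finBasisOfFinrankEq ℤ L ((ZLattice.rank ℝ L).trans Complex.finrank_real_complex)
  have e : range (b.ofZLatticeBasis ℝ L) = {(b 0 : ℂ), (b 1 : ℂ)} := by
    ext
    simp [Fin.exists_fin_two, eq_comm]
  refine ⟨⟨b 0, b 1, ?_⟩, fun s => ?_⟩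
  · have := (b.ofZLatticeBasis ℝ L).linearIndependent
    rwa [show ⇑(b.ofZLatticeBasis ℝ L) = ![(b 0 : ℂ), (b 1 : ℂ)] from funext fun i => by
      fin_cases i <;> simp] at this
  · rw [PeriodPair.lattice, ← e, b.ofZLatticeBasis_span ℝ L]
    rfl

end Pool.Agent.MP_c69980_ag.J1
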