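import Pool.Agent.MP_c69980_ag.J1.Spec

/-!
The alternative of Brody on a compact torus.
-/

set_option autoImplicit false

noncomputable section

namespace Pool.Agent.MP_c69980_ag.J1

open Metric Filter Topology Set
open E1

namespace BroX

/-- A disc with large derivative contains a large, almost linear disc. -/
lemma resc {E : Type} [NormedAddCommGroup E] [NormedSpace ℂ E] [CompleteSpace E] {α : ℂ → E}
    {c : ℂ} {R k : ℝ} (hR : 0 < R) (hk : 0 < k) (hα : DifferentiableOn ℂ α (ball c R))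
    (h : 4 * k < R * ‖deriv α c‖) : ∃ (s₀ : ℂ) (v : E), ‖v‖ = 1 ∧ ∀ u : ℂ, ‖u‖ < k →
      ∃ s ∈ ball c R, ‖α s - (α s₀ + u • v)‖ ≤ 3 * ‖u‖ ^ 2 / k := by
  have hf : DifferentiableOn ℂ (deriv α) (ball c R) := hα.deriv isOpen_ball
  have sub : closedBall c (R / 2) ⊆ ball c R := closedBall_subset_ball (by linarith)
  obtain ⟨s₀, h0, hm⟩ := (isCompact_closedBall c (R / 2)).exists_isMaxOn
    ⟨c, mem_closedBall_self (by linarith)⟩ (f := fun s => (R / 2 - ‖s - c‖) * ‖deriv α s‖)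
    ((Continuous.continuousOn (by fun_prop)).mul (hf.continuousOn.mono sub).norm)
  have h1 : (R / 2 - ‖c - c‖) * ‖deriv α c‖ ≤ (R / 2 - ‖s₀ - c‖) * ‖deriv α s₀‖ :=
    hm (mem_closedBall_self (by linarith))
  rw [sub_self, norm_zero, sub_zero] at h1
  obtain ⟨δ, hδ⟩ : ∃ δ, δ = R / 2 - ‖s₀ - c‖ := ⟨_, rfl⟩
  obtain ⟨m, hm'⟩ : ∃ m, m = ‖deriv α s₀‖ := ⟨_, rfl⟩
  rw [← hδ, ← hm'] at h1
  have d0 : 0 ≤ δ := hδ ▸ sub_nonneg.2 (mem_closedBall_iff_norm.1 h0)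
  have m0 : 0 ≤ m := hm' ▸ norm_nonneg _
  have h2 : 2 * k < δ * m := by linarith
  have d1 : 0 < δ := d0.lt_of_ne fun e => by
    rw [← e, zero_mul] at h2
    linarith
  have m1 : 0 < m := m0.lt_of_ne fun e => by
    rw [← e, mul_zero] at h2
    linarith
  have near : ∀ s ∈ ball s₀ (δ / 2), δ / 2 < R / 2 - ‖s - c‖ := fun s hs => by
    have := norm_sub_le_norm_sub_add_norm_sub s s₀ c
    have := mem_ball_iff_norm.1 hs
    linarith
  have sub2 : ball s₀ (δ / 2) ⊆ closedBall c (R / 2) := fun s hs =>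
    mem_closedBall_iff_norm.2 (by linarith [near s hs])
  have bd : ∀ s ∈ ball s₀ (δ / 2), ‖deriv α s‖ ≤ 2 * m := fun s hs => by
    have h3 : (R / 2 - ‖s - c‖) * ‖deriv α s‖ ≤ (R / 2 - ‖s₀ - c‖) * ‖deriv α s₀‖ := hm (sub2 hs)
    rw [← hδ, ← hm'] at h3
    have h4 := mul_le_mul_of_nonneg_right (near s hs).le (norm_nonneg (deriv α s))
    exact le_of_mul_le_mul_left (a := δ / 2) (by linarith) (by linarith)
  have sch : ∀ s ∈ ball s₀ (δ / 2), ‖deriv α s - deriv α s₀‖ ≤ 3 * m / (δ / 2) * ‖s - s₀‖ :=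
    fun s hs => by
      have := Complex.dist_le_div_mul_dist_of_mapsTo_ball (hf.mono (sub2.trans sub))
        (R₂ := 3 * m) (fun w hw => mem_closedBall_iff_norm.2
          ((norm_sub_le _ _).trans (by linarith [bd w hw]))) hs
      rwa [dist_eq_norm, dist_eq_norm] at this
  have mc : (m : ℂ) ≠ 0 := by exact_mod_cast m1.ne'
  refine ⟨s₀, (m : ℂ)⁻¹ • deriv α s₀, ?_, fun u hu => ?_⟩
  · rw [norm_smul, norm_inv, Complex.norm_of_nonneg m0, ← hm', inv_mul_cancel₀ m1.ne']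
  have r0 : 0 ≤ ‖u‖ / m := by positivity
  have r1 : ‖u‖ / m < δ / 2 := by rw [div_lt_iff₀ m1]; linarith
  have sub3 : closedBall s₀ (‖u‖ / m) ⊆ ball s₀ (δ / 2) := closedBall_subset_ball r1
  have e1 : ‖s₀ + u / m - s₀‖ = ‖u‖ / m := by
    rw [add_sub_cancel_left, norm_div, Complex.norm_of_nonneg m0]
  have in1 : s₀ + u / m ∈ closedBall s₀ (‖u‖ / m) := mem_closedBall_iff_norm.2 e1.le
  refine ⟨s₀ + u / m, sub (sub2 (sub3 in1)), ?_⟩
  have mv := Convex.norm_image_sub_le_of_norm_hasDerivWithin_le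
    (f := fun s => α s - s • deriv α s₀) (f' := fun s => deriv α s - deriv α s₀)
    (C := 3 * m / (δ / 2) * (‖u‖ / m)) (s := closedBall s₀ (‖u‖ / m))
    (fun s hs => by
      have a1 := (hα.differentiableAt (isOpen_ball.mem_nhds (sub (sub2 (sub3 hs))))).hasDerivAt
      have a2 := (hasDerivAt_id' s).smul_const (deriv α s₀)
      rw [one_smul] at a2
      exact (a1.sub a2).hasDerivWithinAt)
    (fun s hs => (sch s (sub3 hs)).trans
      (mul_le_mul_of_nonneg_left (mem_closedBall_iff_norm.1 hs) (by positivity)))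
    (convex_closedBall _ _) (mem_closedBall_self r0) in1
  have e2 : α (s₀ + u / m) - (α s₀ + u • (m : ℂ)⁻¹ • deriv α s₀) =
      α (s₀ + u / m) - (s₀ + u / m) • deriv α s₀ - (α s₀ - s₀ • deriv α s₀) := by
    rw [smul_smul, ← div_eq_mul_inv, add_smul]
    abel
  rw [e2]
  refine mv.trans ?_
  have e3 : 3 * m / (δ / 2) * (‖u‖ / m) * (‖u‖ / m) = 3 * ‖u‖ ^ 2 / (δ * m / 2) := by
    field_simp
  rw [e1, e3]
  exact div_le_div_of_nonneg_left (by positivity) hk (by linarith)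

end BroX

theorem bro : BroStmt := by
  intro a N Ψ Λ C hA hC
  refine or_iff_not_imp_right.2 fun hn => ?_
  obtain ⟨R₀, hR⟩ := hA.per
  have hD : IsClosed {α | Ψ α ∈ C} := hC.1.preimage hA.hol.continuous
  have key : ∀ k : ℕ, ∃ q : (Fin a → ℂ) × (Fin a → ℂ), q ∈ closedBall 0 R₀ ×ˢ sphere 0 1 ∧
      ∀ u : ℂ, ‖u‖ < k + 1 → ∃ y, Ψ y ∈ C ∧ ‖y - (q.1 + u • q.2)‖ ≤ 3 * ‖u‖ ^ 2 / (k + 1) := by
    intro k
    by_contra hk
    refine hn ⟨4 * (k + 1), fun α c R R0 hα hs => not_lt.1 fun q => hk ?_⟩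
    obtain ⟨s₀, v, hv, h⟩ := BroX.resc R0 (by positivity) hα q
    obtain ⟨x, hx, hx'⟩ := hR (α s₀)
    refine ⟨(α s₀ - x, v), ⟨mem_closedBall_zero_iff.2 hx', mem_sphere_zero_iff_norm.2 hv⟩,
      fun u hu => ?_⟩
    obtain ⟨s, s1, s2⟩ := h u hu
    obtain ⟨l, _, e⟩ := (hA.par (α s - x) (α s)).2 (by simpa using hx)
    refine ⟨α s - x, e ▸ hC.2 _ (hs s s1) l, le_of_eq_of_le (congrArg _ ?_) s2⟩
    change α s - x - (α s₀ - x + u • v) = _
    abel
  choose q hq hy using key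
  obtain ⟨p, hp, φ, hφ, lim⟩ := ((isCompact_closedBall (0 : Fin a → ℂ) R₀).prod
    (isCompact_sphere (0 : Fin a → ℂ) 1)).tendsto_subseq hq
  refine ⟨p.1, p.2, fun e => ?_, fun u => ?_⟩
  · have := mem_sphere_zero_iff_norm.1 hp.2
    rw [e, norm_zero] at this
    exact zero_ne_one this
  have l1 : Tendsto (fun k => (q (φ k)).1 + u • (q (φ k)).2) atTop (𝓝 (p.1 + u • p.2)) :=
    ((continuous_fst.add (continuous_snd.const_smul u)).tendsto p).comp lim
  have l2 : Tendsto (fun k => ((φ k : ℕ) : ℝ) + 1) atTop atTop :=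
    tendsto_atTop_add_const_right _ _ (tendsto_natCast_atTop_atTop.comp hφ.tendsto_atTop)
  have l3 : Tendsto (fun k => 3 * ‖u‖ ^ 2 / (((φ k : ℕ) : ℝ) + 1)) atTop (𝓝 0) :=
    l2.const_div_atTop _
  refine hD.closure_subset (Metric.mem_closure_iff.2 fun ε hε => ?_)
  obtain ⟨k, k1, k2, k3⟩ := ((Metric.tendsto_nhds.1 l1 _ (half_pos hε)).and
    ((l2.eventually_gt_atTop ‖u‖).and (l3.eventually_lt_const (half_pos hε)))).exists
  obtain ⟨y, y1, y2⟩ := hy (φ k) u k2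
  refine ⟨y, y1, ?_⟩
  have := dist_triangle_left (p.1 + u • p.2) y ((q (φ k)).1 + u • (q (φ k)).2)
  rw [← dist_eq_norm, dist_comm] at y2
  linarith

end Pool.Agent.MP_c69980_ag.J1
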