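import Pool.Agent.MP_c69980_ag.J1.Spec

/-! Row Cl: the specialisations of the Segre product of the blocks lie on the torus. -/

set_option autoImplicit false

noncomputable section

namespace Pool.Agent.MP_c69980_ag.J1

open MvPolynomial Set
open H60 H4 E1

namespace ClX

variable {t a M : ℕ} {w : Fin M → Option (Fin t)} {ϑ : (Fin a → ℂ) → Fin M → ℂ}
  {K : Type} [Field K] [Algebra ℂ K] {u : Fin M → K}

theorem sg_val {A : Type} [Field A] (y : Fin M → A) {b : H43.Cht M t} (hb : ∀ o, w (b o) = o) :
    sg w y (cht M t b) = ∏ o, y (b o) := by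
  simp [sg, hb]

theorem sg_inv {A : Type} [Field A] (y : Fin M → A) {b : H43.Cht M t} (hb : ¬ ∀ o, w (b o) = o) :
    sg w y (cht M t b) = 0 := by
  simp only [sg, Equiv.symm_apply_apply]
  exact if_neg hb

/-- block scaling with nonzero complex factors -/
theorem scaleC (hu : ∀ (F : PR M) (d : ℕ), F.IsHomogeneous d →
    (∀ s α, eval (H43.Th w ϑ s α) F = 0) → aeval u F = 0) {F : PR M} {d : ℕ}
    (hF : F.IsHomogeneous d) (h0 : ∀ s α, eval (H43.Th w ϑ s α) F = 0)
    (l : Option (Fin t) → ℂ) (hl : ∀ o, l o ≠ 0) :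
    aeval (fun c => algebraMap ℂ K (l (w c)) * u c) F = 0 := by
  have h1 : (aeval (fun c => (C (l (w c)) * X c : PR M)) F).IsHomogeneous (1 * d) :=
    hF.aeval _ fun c => (isHomogeneous_X ℂ c).C_mul _
  have h2 := hu _ _ h1 fun s α => by
    have e : (fun c => l (w c) * H43.Th w ϑ s α c) =
        l none • H43.Th w ϑ (fun j => s j + Complex.log (l (some j) / l none)) α := by
      funext c
      simp only [H43.Th, Pi.smul_apply, smul_eq_mul]
      cases w c with
      | none => simp
      | some j =>
        have := hl none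
        simp only [Option.elim, Complex.exp_add,
          Complex.exp_log (div_ne_zero (hl (some j)) (hl none))]
        field_simp
    have h3 := eval_smul_hom hF (l none)
      (H43.Th w ϑ (fun j => s j + Complex.log (l (some j) / l none)) α)
    rw [h0, mul_zero, ← e] at h3
    rw [← coe_aeval_eq_eval, RingHom.coe_coe, comp_aeval_apply]
    simpa [coe_aeval_eq_eval] using h3
  rw [comp_aeval_apply] at h2
  simpa using h2

/-- block scaling -/
theorem scale (hu : ∀ (F : PR M) (d : ℕ), F.IsHomogeneous d →
    (∀ s α, eval (H43.Th w ϑ s α) F = 0) → aeval u F = 0) {F : PR M} {d : ℕ}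
    (hF : F.IsHomogeneous d) (h0 : ∀ s α, eval (H43.Th w ϑ s α) F = 0)
    (l : Option (Fin t) → K) : aeval (fun c => l (w c) * u c) F = 0 := by
  have key : ∀ l : Option (Fin t) → K,
      eval l (aeval (fun c => (X (w c) * C (u c) : MvPolynomial (Option (Fin t)) K)) F) =
        aeval (fun c => l (w c) * u c) F := by
    intro l
    have := comp_aeval_apply (fun c => (X (w c) * C (u c) : MvPolynomial (Option (Fin t)) K))
      ((aeval (R := K) l).restrictScalars ℂ) F
    simpa [coe_aeval_eq_eval] using this
  have hP : aeval (fun c => (X (w c) * C (u c) : MvPolynomial (Option (Fin t)) K)) F = 0 := by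
    refine funext_set (fun _ => algebraMap ℂ K '' {0}ᶜ) (fun _ => ?_) fun x hx => ?_
    · exact ((finite_singleton (0 : ℂ)).infinite_compl).image (algebraMap ℂ K).injective.injOn
    · choose! l' h1 h2 using fun o => hx o (mem_univ o)
      rw [key, map_zero]
      simpa only [h2] using scaleC hu hF h0 l' h1
  rw [← key, hP, map_zero]

omit [Algebra ℂ K] in
theorem prod_erase {x : Option (Fin t) → K} (hx : ∀ o, x o ≠ 0) :
    ∏ o, ∏ o' ∈ Finset.univ.erase o, x o' = (∏ o, x o) ^ t := by
  have h0 : ∏ o, x o ≠ 0 := Finset.prod_ne_zero_iff.2 fun o _ => hx o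
  refine mul_left_cancel₀ h0 ?_
  rw [← Finset.prod_mul_distrib, ← pow_succ']
  rw [Finset.prod_congr rfl fun o _ => Finset.mul_prod_erase _ x (Finset.mem_univ o)]
  simp

end ClX

open ClX in
theorem cl : ClStmt := by
  intro t a M w ϑ K _ _ u hS hu y hy hon
  obtain ⟨i, hi⟩ := Function.ne_iff.1 hy
  replace hi : y i ≠ 0 := hi
  obtain ⟨b₀, rfl⟩ := (cht M t).surjective i
  have hz : ∀ j, sg w u j = 0 → y j = 0 := fun j hj => by
    simpa using hon (X j) 1 (isHomogeneous_X ℂ j) (by simpa using hj)
  have hb₀ : ∀ o, w (b₀ o) = o := by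
    by_contra h
    exact hi (hz _ (sg_inv u h))
  have hu₀ : ∀ o, u (b₀ o) ≠ 0 := fun o h =>
    hi (hz _ (by rw [sg_val u hb₀]; exact Finset.prod_eq_zero (Finset.mem_univ o) h))
  let r : Fin M → Fin (Fintype.card (H43.Cht M t)) := fun c =>
    cht M t (Function.update b₀ (w c) c)
  let l : Option (Fin t) → K := fun o => ∏ o' ∈ Finset.univ.erase o, u (b₀ o')
  have hr : ∀ c, sg w u (r c) = l (w c) * u c := by
    intro c
    have hv : ∀ o, w (Function.update b₀ (w c) c o) = o := fun o => by
      by_cases h : o = w c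
      · rw [h, Function.update_self]
      · rw [Function.update_of_ne h, hb₀]
    rw [sg_val u hv, ← Finset.mul_prod_erase _ _ (Finset.mem_univ (w c)), Function.update_self,
      mul_comm]
    congr 1
    exact Finset.prod_congr rfl fun o ho => by
      rw [Function.update_of_ne (Finset.ne_of_mem_erase ho)]
  obtain ⟨s, α, m, hm⟩ := hS.cl (y ∘ r) (fun F d hF h0 => by
      rw [← eval_rename]
      refine hon _ d hF.rename_isHomogeneous ?_
      rw [aeval_rename, show sg w u ∘ r = fun c => l (w c) * u c from funext hr]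
      exact scale hu hF h0 l)
    fun o => ⟨b₀ o, hb₀ o, by
      simpa only [Function.comp, r, hb₀, Function.update_eq_self] using hi⟩
  have he : y = ((∏ o : Option (Fin t), m * o.elim 1 fun j => Complex.exp (s j)) /
      y (cht M t b₀) ^ t) • sg w (ϑ α) := by
    funext j
    obtain ⟨b, rfl⟩ := (cht M t).surjective j
    by_cases hb : ∀ o, w (b o) = o
    · have h1 : (X (cht M t b) * X (cht M t b₀) ^ t - ∏ o, X (r (b o)) :
          PR (Fintype.card (H43.Cht M t))).IsHomogeneous (1 + t) := by
        refine ((isHomogeneous_X ℂ _).mul (isHomogeneous_X_pow _ t)).sub ?_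
        have := IsHomogeneous.prod Finset.univ
          (fun o : Option (Fin t) => (X (r (b o)) : PR (Fintype.card (H43.Cht M t)))) (fun _ => 1)
          fun o _ => isHomogeneous_X ℂ _
        simpa [add_comm] using this
      have h2 := hon _ _ h1 (by
        simp only [map_sub, map_mul, map_pow, map_prod, aeval_X, hr, hb, sg_val u hb,
          sg_val u hb₀, Finset.prod_mul_distrib, l, prod_erase hu₀]
        ring)
      simp only [map_sub, map_mul, map_pow, map_prod, eval_X] at h2
      have h3 : ∀ o, y (r (b o)) = (m * o.elim 1 fun j => Complex.exp (s j)) * ϑ α (b o) := by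
        intro o
        have := congrFun hm (b o)
        simp only [Function.comp, Pi.smul_apply, smul_eq_mul, H43.Th, hb] at this
        rw [this, mul_assoc]
      simp only [h3, Finset.prod_mul_distrib] at h2
      rw [Pi.smul_apply, smul_eq_mul, sg_val _ hb, div_mul_eq_mul_div,
        eq_div_iff (pow_ne_zero t hi), Finset.prod_mul_distrib]
      exact sub_eq_zero.1 h2
    · rw [Pi.smul_apply, sg_inv _ hb, smul_zero]
      exact hz _ (sg_inv u hb)
  refine ⟨α, _, fun h => hy ?_, he⟩
  rw [he, h, zero_smul]

end Pool.Agent.MP_c69980_ag.J1
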