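import Pool.Agent.MP_c69980_ag.J1.Spec

/-!
The image in the abelian quotient is at most a curve.
-/

set_option autoImplicit false

namespace Pool.Agent.MP_c69980_ag.J1

theorem dep : DepStmt := by
  intro t M w K _ _ u h2 hn f hf g hg hi
  have le : H43.K0 (sg w u) ≤ H43.K0 u := IntermediateField.adjoin_le_iff.2 (by
    rintro _ ⟨c, b, rfl⟩
    simp only [sg, SetLike.mem_coe]
    split_ifs
    · rw [← Finset.prod_div_distrib]
      exact prod_mem fun o _ => IntermediateField.subset_adjoin _ _ ⟨_, _, rfl⟩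
    all_goals simp)
  have hb := (hi.isTranscendenceBasis_of_trdeg_le_of_finite (by simp [h2])).isAlgebraic
  refine hn ⟨fun x => (hb.isAlgebraic x).tower_top_of_subalgebra_le
    (B := (H43.K0 u).toSubalgebra) (Algebra.adjoin_le ?_)⟩
  rintro _ ⟨i, rfl⟩
  fin_cases i
  exacts [le hf, le hg]

end Pool.Agent.MP_c69980_ag.J1
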