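import Pool.Agent.MP_c69980_ag.J1.Spec
import Pool.Agent.MP_c69980_ag.J1E.D

/-!
A line on the image gives a rational map to an elliptic curve.
-/

set_option autoImplicit false

namespace Pool.Agent.MP_c69980_ag.J1

open H60 H4 E1

theorem ell : EllStmt := fun _ L θ _ _ _ _ h1 h2 h3 ho hd =>
  J1E.Emb.ell (L := L) (θ := θ) ⟨h1, h2, fun s s' => (Iff.intro (fun ⟨c, _, q⟩ => ⟨c, q⟩)
    fun ⟨c, q⟩ => ⟨c, fun r => h2 s (by rw [q, r, zero_smul]), q⟩).trans (h3 s s')⟩ ho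
    fun b c c' => hd _ (IntermediateField.subset_adjoin _ _ ⟨c, b, rfl⟩) _
      (IntermediateField.subset_adjoin _ _ ⟨c', b, rfl⟩)

end Pool.Agent.MP_c69980_ag.J1
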