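import Pool.Agent.MP_c69980_ag.J1.Spec
import Pool.Agent.MP_c69980_ag.I4.Ext

/-!
Rational maps from a smooth surface that have no analytic point of indeterminacy are defined
everywhere.
-/

set_option autoImplicit false

noncomputable section

namespace Pool.Agent.MP_c69980_ag.J1

open MvPolynomial Metric Filter Topology Set
open H60 H4 E1 I4 I4.ExtX

theorem ext : ExtStmt := by
  intro n N W K _ _ z ξ hz hR hW hξ hc x hx
  have ox := on_rep hz (sub_zcl hx)
  obtain ⟨a, b, j, U, Y, ⟨hU, hY, hp⟩, q, hq, H⟩ :=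
    hW x.rep ⟨x.rep_nonzero, by rwa [Projectivization.mk_rep]⟩
  have oY : ∀ p ∈ U, On z (Y p) := fun p h => Cone.on hz (hp p h).2.2.2.1
  have H' : Pp (Y q) x.rep := H.symm
  have xj : x.rep j ≠ 0 := by
    obtain ⟨c, c0, e⟩ := H
    rw [e, Pi.smul_apply, (hp q hq).1]
    simpa using c0
  have zj : z j ≠ 0 := fun e => xj (by simpa using ox _ _ (isHomogeneous_X ℂ j) (by simpa using e))
  obtain ⟨l, l0, hl, hrel⟩ := walg K (locRing z x) (hR x hx).1 (hR x hx).2 (fun u => by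
    obtain ⟨F, G, d, hF, hG, g0, rfl⟩ := quot hz u
    have r : ∀ P : PR n, P.IsHomogeneous d → aeval z P / z j ^ d ∈ locRing z x := fun P hP =>
      (loc_iff ox _).2 ⟨P, X j ^ d, d, hP, isHomogeneous_X_pow j d, by simp [xj], by simp⟩
    exact ⟨_, r F hF, _, r G hG, div_ne_zero g0 (pow_ne_zero _ zj),
      (div_div_div_cancel_right₀ (pow_ne_zero _ zj) _ _).symm⟩) N ξ hξ
  have rl := fun i => (loc_iff ox _).1 (hl i)
  have eU : ∀ᶠ p in 𝓝 q, p ∈ U := hU.mem_nhds hq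
  have an := fun (u : K) (hu : Reg z x.rep u) =>
    vl_an (hY q hq) (eU.mono oY) (H'.reg hu)
  have eR : ∀ᶠ p in 𝓝 q, ∀ i, Reg z (Y p) (l * ξ i) := eventually_all.2 fun i => (an _ (rl i)).2
  have co : ∀ c : Fin n, ∀ᶠ p in 𝓝 q, (∀ i, vl z (l * ξ i) (Y p) = 0) → Y p c = Y q c := by
    intro c
    have r := vl_co (a := c) (oY q hq) (hp q hq).1 (Y q c)
    obtain ⟨k, α, hα, e⟩ := hrel ⟨_, (loc_iff ox _).2 (H.reg r.1)⟩ (by
      rw [unit_iff ox, not_not, H.vl (oY q hq) r.1, r.2, sub_self])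
    filter_upwards [eU, eR, eventually_all.2 fun i => (an _ ((loc_iff ox _).1 (hα i))).2]
      with p p1 p2 p3 p4
    have r' := vl_co (a := c) (oY p p1) (hp p p1).1 (Y q c)
    exact sub_eq_zero.1 (r'.2.symm.trans (vl_rel (oY p p1) r'.1 p3 p2 e p4))
  have F0 := hc (fun p i => vl z (l * ξ i) (Y p)) q
    (analyticAt_pi_iff.2 fun i => (an _ (rl i)).1)
    (by
      filter_upwards [self_mem_nhdsWithin, mem_nhdsWithin_of_mem_nhds eU,
        mem_nhdsWithin_of_mem_nhds eR, mem_nhdsWithin_of_mem_nhds (co a),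
        mem_nhdsWithin_of_mem_nhds (co b)] with p p0 p1 p2 p3 p4
      refine ⟨fun e => p0 (Prod.ext ?_ ?_), fun G d hG h0 => ?_⟩
      · rw [← (hp p p1).2.1, ← (hp q hq).2.1, p3 (congrFun e)]
      · rw [← (hp p p1).2.2.1, ← (hp q hq).2.2.1, p4 (congrFun e)]
      · have : aeval (fun i => l * ξ i) G = l ^ d * aeval ξ G := aeval_scale hG l ξ
        rw [← (vl_aeval (oY p p1) p2 _).2, this, h0, mul_zero, (vl_zero (oY p p1)).2])
  obtain ⟨i, hi⟩ := Function.ne_iff.1 F0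
  exact ⟨l, l0, rl, i, by rwa [H.vl (oY q hq) (H'.reg (rl i))]⟩

end Pool.Agent.MP_c69980_ag.J1
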