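import Pool.Agent.MP_c69980_ag.J1.Spec
import Pool.Agent.MP_c69980_ag.I4.Fin

/-!
From bounds for discs in the open part of the model to the four conditions.
-/

set_option autoImplicit false

namespace Pool.Agent.MP_c69980_ag.J1

open MvPolynomial H60 H4 E1 I4

variable {n n' m : ℕ} {K : Type} [Field K] [Algebra ℂ K] {U : Set (PS n)} {W : Set (PS n')}
  {z : Fin n → K} {z' : Fin n' → K} {π : PS n' → PS n} {E : Fin 2 → Derivation ℂ K K}
  {h : Fin 3 → K}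

theorem fin (hU : IsVar U) (hz : GenPt U z) (ld : LDat U z W z' π m E h)
    (hP : ∀ j', ∃ (P : PR n') (e : ℕ), P.IsHomogeneous e ∧ aeval z' P ≠ 0 ∧
      ∀ p, eval p P ≠ 0 → Good2 {x ∈ W | π x ∈ U} j' p) :
    PseudoKob U ∧ PseudoBrody U ∧ H43.PseudoFin U ∧ PseudoBdd U := by
  obtain ⟨j, j0⟩ := gen_nz hz
  obtain ⟨j', j1⟩ := gen_nz ld.2.1
  obtain ⟨P, b, P1, P2, P3⟩ := hP j'
  obtain ⟨H, a, H1, H2, H3⟩ := trf n n' U W K z z' π m E h P b j j' hz ld P1 P2 j0 j1 P3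
  have hh := H1.mul (isHomogeneous_X ℂ j)
  have k1 : PseudoKob U := by
    refine ⟨{P | eval P.rep (H * X j) = 0}, ⟨{H * X j}, by simpa using ⟨_, hh⟩, by simp⟩,
      fun hs => mul_ne_zero H2 j0 (by simpa using (hz.1 _ _ hh).2 hs), ?_⟩
    have key : ∀ P : PS n, eval P.rep (H * X j) ≠ 0 →
        P.rep j ≠ 0 ∧ Good2 U j (nrm j P.rep) := fun P h => by
      rw [map_mul, eval_X, mul_ne_zero_iff] at h
      refine ⟨h.2, H3 _ ?_⟩
      rw [nrm, eval_smul_hom H1]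
      exact mul_ne_zero (pow_ne_zero _ (inv_ne_zero h.2)) h.1
    intro P _ Q _ hPQ hΔ
    rcases not_and_or.1 hΔ with h | h
    · exact (kob_pos2 (key P h).1 (key P h).2 hPQ).1
    · exact (kob_pos2 (key Q h).1 (key Q h).2 hPQ.symm).2
  obtain ⟨R, c, Λ, R1, R2, R3⟩ := B.core allB ⟨n, n', m, U, z, W, z', π, E, h, hz, ld⟩ H1 H2 j0 H3
  have k5 : PseudoBdd U := B.bdd_of allB R1 (fun q => R2 ((hz.1 _ _ R1).2 q)) R3
  exact ⟨k1, brody_of_kob k1, pto kbo (rigO ult) n U K z H a j hU hz H1 H2 j0 H3 k5, k5⟩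

lemma cn0 {N : ℕ} (ξ : Fin N → K) : Cn0 {y | On ξ y} := by
  refine ⟨?_, fun y hy l G d hG q => by rw [eval_smul_hom hG, hy G d hG q, mul_zero]⟩
  simp only [On, Set.ofPred_forall]
  exact isClosed_iInter fun G => isClosed_iInter fun _ => isClosed_iInter fun _ =>
    isClosed_iInter fun _ => isClosed_eq (MvPolynomial.continuous_eval G) continuous_const

end Pool.Agent.MP_c69980_ag.J1
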