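import Pool.Agent.MP_c69980_ag.J1.Spec

/-!
Hypersurface sections of a curve are finite.
-/

set_option autoImplicit false

noncomputable section

namespace Pool.Agent.MP_c69980_ag.J1

open MvPolynomial Set
open H60 H4 E1

namespace FinZX

theorem scale {σ A : Type} [CommRing A] [Algebra ℂ A] {F : MvPolynomial σ ℂ} {d : ℕ}
    (hF : F.IsHomogeneous d) (c : A) (v : σ → A) :
    aeval (fun i => c * v i) F = c ^ d * aeval v F := by
  rw [aeval_def, aeval_def, eval₂_eq, eval₂_eq, Finset.mul_sum]
  refine Finset.sum_congr rfl fun m hm => ?_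
  have h := hF (mem_support_iff.1 hm)
  rw [Finsupp.weight_apply, Finsupp.sum] at h
  simp only [Pi.one_apply, smul_eq_mul, mul_one] at h
  simp only [mul_pow, Finset.prod_mul_distrib, Finset.prod_pow_eq_pow_sum, h]
  ring

theorem dvd_sub_subst (P : MvPolynomial (Fin 2) ℂ) :
    X 0 ∣ P - aeval (![0, X 1] : Fin 2 → MvPolynomial (Fin 2) ℂ) P := by
  induction P using MvPolynomial.induction_on with
  | C c => simp
  | add p q hp hq =>
    rw [map_add, add_sub_add_comm]
    exact dvd_add hp hq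
  | mul_X p i hp =>
    rw [map_mul, aeval_X]
    fin_cases i
    · simp
    · change X 0 ∣ p * X 1 - _ * X 1
      rw [← sub_mul]
      exact hp.mul_right _

theorem eval_subst (P : MvPolynomial (Fin 2) ℂ) (v : Fin 2 → ℂ) :
    eval v (aeval (![0, X 1] : Fin 2 → MvPolynomial (Fin 2) ℂ) P) = eval ![0, v 1] P := by
  induction P using MvPolynomial.induction_on with
  | C c => simp
  | add p q hp hq => rw [map_add, map_add, map_add, hp, hq]
  | mul_X p i hp =>
    rw [map_mul, map_mul, map_mul, hp, aeval_X]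
    fin_cases i <;> simp

theorem eval_poly (P : MvPolynomial (Fin 2) ℂ) (c : ℂ) :
    (aeval (![0, Polynomial.X] : Fin 2 → Polynomial ℂ) P).eval c = eval ![0, c] P := by
  induction P using MvPolynomial.induction_on with
  | C c => simp
  | add p q hp hq => rw [map_add, map_add, Polynomial.eval_add, hp, hq]
  | mul_X p i hp =>
    rw [map_mul, map_mul, Polynomial.eval_mul, hp, aeval_X]
    fin_cases i <;> simp

theorem rel {K : Type} [Field K] [Algebra ℂ K] {r x : K} (hr : r ≠ 0)
    (h : ¬AlgebraicIndependent ℂ ![r, x]) : ∃ P : MvPolynomial (Fin 2) ℂ,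
    aeval ![r, x] P = 0 ∧ {c : ℂ | eval ![0, c] P = 0}.Finite := by
  rw [algebraicIndependent_iff] at h
  push Not at h
  obtain ⟨P, hP, h0⟩ := h
  have hu : ¬IsUnit (X 0 : MvPolynomial (Fin 2) ℂ) := fun hu => by
    simpa using hu.map constantCoeff
  obtain ⟨n, Q, hQ, rfl⟩ := WfDvdMonoid.max_power_factor' h0 hu
  rw [map_mul, map_pow, aeval_X] at hP
  refine ⟨Q, (mul_eq_zero.1 hP).resolve_left (pow_ne_zero _ hr), ?_⟩
  have hne : aeval (![0, Polynomial.X] : Fin 2 → Polynomial ℂ) Q ≠ 0 := fun h1 => hQ (by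
    have h2 : aeval (![0, X 1] : Fin 2 → MvPolynomial (Fin 2) ℂ) Q = 0 :=
      MvPolynomial.funext fun v => by rw [eval_subst, ← eval_poly, h1]; simp
    have h3 := dvd_sub_subst Q
    rwa [h2, sub_zero] at h3)
  refine (Polynomial.finite_setOfPred_isRoot hne).subset fun c hc => ?_
  exact (eval_poly Q c).trans hc

end FinZX

open FinZX

theorem finZ : FinZStmt := by
  intro N K _ _ ξ F d hD hF h0
  have key : ∀ j i : Fin N, ∃ R : Set ℂ, R.Finite ∧
      ∀ y, On ξ y → y j ≠ 0 → eval y F = 0 → y i / y j ∈ R := by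
    intro j i
    by_cases hj : ξ j = 0
    · exact ⟨∅, finite_empty, fun y hy h _ =>
        absurd (by simpa using hy (X j) 1 (isHomogeneous_X _ _) (by simpa)) h⟩
    have hrat : ∀ c, ξ c / ξ j ∈ H43.K0 ξ := fun c =>
      IntermediateField.subset_adjoin _ _ ⟨c, j, rfl⟩
    have e : aeval ξ F / aeval ξ (X j ^ d : PR N) = aeval (fun c => (ξ j)⁻¹ * ξ c) F := by
      rw [scale hF, map_pow, aeval_X, inv_pow, div_eq_inv_mul]
    have hmem : aeval ξ F / aeval ξ (X j ^ d : PR N) ∈ H43.K0 ξ := by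
      rw [e]
      clear e h0 hF
      induction F using MvPolynomial.induction_on with
      | C c => rw [aeval_C]; exact IntermediateField.algebraMap_mem _ c
      | add p q hp hq => rw [map_add]; exact add_mem hp hq
      | mul_X p c hp =>
        rw [map_mul, aeval_X, ← div_eq_inv_mul]
        exact mul_mem hp (hrat c)
    obtain ⟨P, hP, hfin⟩ := rel (div_ne_zero h0 (by simpa using fun h => absurd h hj))
      (hD _ hmem _ (hrat i))
    refine ⟨_, hfin, fun y hy hyj hyF => ?_⟩
    have hX : (X j ^ d : PR N).IsHomogeneous d := by simpa using (isHomogeneous_X ℂ j).pow d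
    have hX0 : eval y (X j ^ d : PR N) ≠ 0 := by simpa using fun h => absurd h hyj
    have hj0 : eval y (X j : PR N) ≠ 0 := by simpa
    have e2 : ξ i / ξ j = aeval ξ (X i : PR N) / aeval ξ (X j : PR N) := by simp
    have h1 := (vl_aeval hy (u := ![aeval ξ F / aeval ξ (X j ^ d : PR N), ξ i / ξ j]) (fun k => by
      fin_cases k
      · exact ⟨F, _, d, hF, hX, hX0, rfl⟩
      · exact ⟨X i, X j, 1, isHomogeneous_X _ _, isHomogeneous_X _ _, hj0, e2⟩) P).2
    have h2 : vl ξ (0 : K) y = 0 := by simpa using (vl_const hy 0).2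
    have h3 : (fun k => vl ξ (![aeval ξ F / aeval ξ (X j ^ d : PR N), ξ i / ξ j] k) y) =
        ![0, y i / y j] := by
      funext k
      fin_cases k
      · change vl ξ (aeval ξ F / aeval ξ (X j ^ d : PR N)) y = 0
        rw [vl_eq hy hF hX hX0, hyF, zero_div]
      · change vl ξ (ξ i / ξ j) y = y i / y j
        rw [e2, vl_eq hy (isHomogeneous_X _ _) (isHomogeneous_X _ _) hj0, eval_X, eval_X]
    rw [hP, h2, h3] at h1
    exact h1.symm
  choose R hR hm using key
  refine ⟨⋃ j, Set.pi univ (R j), finite_iUnion fun j => Finite.pi' (hR j) |>.subset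
    fun v hv i => hv i trivial, fun y hy hon hyF => ?_⟩
  obtain ⟨j, hj⟩ := Function.ne_iff.1 hy
  refine ⟨fun i => y i / y j, mem_iUnion.2 ⟨j, fun i _ => hm j i y hon hj hyF⟩, y j, hj, ?_⟩
  funext i
  exact (mul_div_cancel₀ (y i) hj).symm

end Pool.Agent.MP_c69980_ag.J1
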