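import Pool.Agent.MP_c69980_ag.J1.Spec

/-!
A line in the torus that lies on a curve is closed.
-/

set_option autoImplicit false

noncomputable section

namespace Pool.Agent.MP_c69980_ag.J1

open MvPolynomial Metric Filter Topology Set
open H60 H4 E1

namespace Lat

theorem zero {g : ℂ → ℂ} (hg : Differentiable ℂ g) {ρ m : ℝ} (ρ0 : 0 < ρ)
    (h : ∀ s ∈ sphere (0 : ℂ) ρ, m < ‖g s‖) (h0 : ‖g 0‖ < m) : ∃ s, ‖s‖ ≤ ρ ∧ g s = 0 := by
  by_contra hn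
  push Not at hn
  have m0 : 0 < m := (norm_nonneg _).trans_lt h0
  have d : DiffContOnCl ℂ (fun s => (g s)⁻¹) (ball 0 ρ) := by
    refine DifferentiableOn.diffContOnCl ?_
    rw [closure_ball _ ρ0.ne']
    exact hg.differentiableOn.inv fun s hs => hn s (mem_closedBall_zero_iff.1 hs)
  have := Complex.norm_le_of_forall_mem_frontier_norm_le isBounded_ball d (C := m⁻¹) (z := 0)
    (fun s hs => by
      rw [frontier_ball _ ρ0.ne'] at hs
      rw [norm_inv]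
      exact inv_anti₀ m0 (h s hs).le) (subset_closure (mem_ball_self ρ0))
  rw [norm_inv, inv_le_inv₀ (norm_pos_iff.2 (hn 0 (by simpa using ρ0.le))) m0] at this
  exact h0.not_ge this

theorem fam {E : Type} [TopologicalSpace E] {G : E × ℂ → ℂ} (hG : Continuous G)
    (hd : ∀ β, Differentiable ℂ fun s => G (β, s)) {b : E} (h0 : G (b, 0) = 0)
    (h1 : ∀ᶠ s in 𝓝[≠] 0, G (b, s) ≠ 0) : ∀ᶠ β in 𝓝 b, ∃ s, ‖s‖ ≤ 1 ∧ G (β, s) = 0 := by
  obtain ⟨r, r0, hr⟩ := Metric.eventually_nhds_iff.1 (eventually_nhdsWithin_iff.1 h1)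
  have ρ0 : 0 < min (r / 2) 1 := lt_min (half_pos r0) one_pos
  have nz : ∀ s ∈ sphere (0 : ℂ) (min (r / 2) 1), G (b, s) ≠ 0 := fun s hs =>
    hr ((mem_sphere.1 hs).trans_lt ((min_le_left _ _).trans_lt (half_lt_self r0))) (by
      rintro rfl
      simp only [mem_sphere, dist_self] at hs
      exact ρ0.ne hs)
  obtain ⟨m, m0, hm⟩ := (isCompact_sphere (0 : ℂ) (min (r / 2) 1)).exists_forall_le'
    (f := fun s => ‖G (b, s)‖) (hd b).continuous.norm.continuousOn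
    fun s hs => norm_pos_iff.2 (nz s hs)
  have e1 : ∀ᶠ β in 𝓝 b, ∀ s ∈ sphere (0 : ℂ) (min (r / 2) 1), m / 2 < ‖G (β, s)‖ :=
    (isCompact_sphere _ _).eventually_forall_of_forall_eventually fun s hs =>
      hG.norm.continuousAt.eventually_const_lt ((half_lt_self m0).trans_le (hm s hs))
  have e2 : ∀ᶠ β in 𝓝 b, ‖G (β, 0)‖ < m / 2 :=
    (hG.comp (continuous_id.prodMk continuous_const)).norm.continuousAt.eventually_lt_const
      (by simpa [h0] using m0)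
  filter_upwards [e1, e2] with β q1 q2
  obtain ⟨s, s1, s2⟩ := zero (hd β) ρ0 q1 q2
  exact ⟨s, s1.trans (min_le_right _ _), s2⟩

variable {a N : ℕ} {Ψ : (Fin a → ℂ) → V N} {Λ : AddSubgroup (Fin a → ℂ)}
  {K : Type} [Field K] [Algebra ℂ K] {ξ : Fin N → K} {v : Fin a → ℂ}

theorem loc (h1 : FinZStmt) (h : AV Ψ Λ) (hd : Dep1 ξ) (v0 : v ≠ 0) {b : Fin a → ℂ}
    (hb : ∀ s : ℂ, On ξ (Ψ (b + s • v))) : ∃ S : Set (V N), S.Finite ∧ ∀ᶠ β in 𝓝 b,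
      (∀ s : ℂ, On ξ (Ψ (β + s • v))) → ∃ s : ℂ, ‖s‖ ≤ 1 ∧ ∃ y ∈ S, Pp (Ψ (β + s • v)) y := by
  obtain ⟨j, hj⟩ := Function.ne_iff.1 (h.nz b)
  have hj : Ψ b j ≠ 0 := hj
  obtain ⟨i, hi⟩ : ∃ i, Ψ b j * fderiv ℂ Ψ b v i - Ψ b i * fderiv ℂ Ψ b v j ≠ 0 := by
    by_contra hn
    push Not at hn
    refine v0 (h.imm b v (fderiv ℂ Ψ b v j / Ψ b j) (funext fun i => ?_))
    rw [Pi.smul_apply, smul_eq_mul]
    field_simp
    linear_combination hn i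
  let F : PR N := C (Ψ b j) * X i - C (Ψ b i) * X j
  have hF : F.IsHomogeneous 1 :=
    ((isHomogeneous_X ℂ i).C_mul _).sub ((isHomogeneous_X ℂ j).C_mul _)
  let G : (Fin a → ℂ) × ℂ → ℂ := fun p =>
    Ψ b j * Ψ (p.1 + p.2 • v) i - Ψ b i * Ψ (p.1 + p.2 • v) j
  have eF : ∀ β s, eval (Ψ (β + s • v)) F = G (β, s) := fun β s => by simp [F, G]
  have c := h.hol.continuous
  have dl : ∀ (β : Fin a → ℂ) (s : ℂ), HasDerivAt (fun s : ℂ => Ψ (β + s • v))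
      (fderiv ℂ Ψ (β + s • v) v) s := fun β s => by
    have := (h.hol (β + s • v)).hasFDerivAt.comp_hasDerivAt s
      (((hasDerivAt_id s).smul_const v).const_add β)
    rwa [one_smul] at this
  have dG : ∀ (β : Fin a → ℂ) (s : ℂ), HasDerivAt (fun s => G (β, s))
      (Ψ b j * fderiv ℂ Ψ (β + s • v) v i - Ψ b i * fderiv ℂ Ψ (β + s • v) v j) s := fun β s =>
    ((hasDerivAt_pi.1 (dl β s) i).const_mul _).sub ((hasDerivAt_pi.1 (dl β s) j).const_mul _)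
  have ne : ∀ᶠ s in 𝓝[≠] 0, G (b, s) ≠ 0 := (dG b 0).eventually_ne (by simpa using hi)
  obtain ⟨S, S1, S2⟩ := h1 N K ξ F 1 hd hF fun e => by
    obtain ⟨s, hs⟩ := ne.exists
    exact hs ((eF b s).symm.trans (hb s F 1 hF e))
  refine ⟨S, S1, (fam (G := G) (by fun_prop) (fun β s => (dG β s).differentiableAt)
    (by simp [G, mul_comm]) ne).mono fun β ⟨s, s1, s2⟩ q => ?_⟩
  exact ⟨s, s1, S2 _ (h.nz _) (q s) ((eF β s).trans s2)⟩

theorem glob (h1 : FinZStmt) (h : AV Ψ Λ) (hd : Dep1 ξ) (v0 : v ≠ 0) (R : ℝ) :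
    ∃ S : Set (V N), S.Finite ∧ ∀ β, ‖β‖ ≤ R → (∀ s : ℂ, On ξ (Ψ (β + s • v))) →
      ∃ s : ℂ, ‖s‖ ≤ 1 ∧ ∃ y ∈ S, Pp (Ψ (β + s • v)) y := by
  have c := h.hol.continuous
  have cl : IsClosed {β | ∀ s : ℂ, On ξ (Ψ (β + s • v))} := by
    simp only [On, setOf_forall]
    refine isClosed_iInter fun s => isClosed_iInter fun G => isClosed_iInter fun d =>
      isClosed_iInter fun _ => isClosed_iInter fun _ => isClosed_eq ?_ continuous_const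
    exact (MvPolynomial.continuous_eval G).comp (by fun_prop)
  have := ((isCompact_closedBall (0 : Fin a → ℂ) R).inter_right cl).induction_on
    (p := fun T => ∃ S : Set (V N), S.Finite ∧ ∀ β ∈ T, (∀ s : ℂ, On ξ (Ψ (β + s • v))) →
      ∃ s : ℂ, ‖s‖ ≤ 1 ∧ ∃ y ∈ S, Pp (Ψ (β + s • v)) y)
    ⟨∅, finite_empty, fun _ q => q.elim⟩
    (fun _ _ q ⟨S, S1, S2⟩ => ⟨S, S1, fun β hβ => S2 β (q hβ)⟩)
    (fun _ _ ⟨S, S1, S2⟩ ⟨S', S1', S2'⟩ => ⟨S ∪ S', S1.union S1', fun β hβ q => by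
      rcases hβ with hβ | hβ
      · obtain ⟨s, s1, y, y1, y2⟩ := S2 β hβ q
        exact ⟨s, s1, y, Or.inl y1, y2⟩
      · obtain ⟨s, s1, y, y1, y2⟩ := S2' β hβ q
        exact ⟨s, s1, y, Or.inr y1, y2⟩⟩)
    fun b hb => by
      obtain ⟨S, S1, S2⟩ := loc h1 h hd v0 hb.2
      exact ⟨_, mem_nhdsWithin_of_mem_nhds S2, S, S1, fun β hβ => hβ⟩
  obtain ⟨S, S1, S2⟩ := this
  exact ⟨S, S1, fun β q1 q2 => S2 β ⟨mem_closedBall_zero_iff.2 q1, q2⟩ q2⟩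

end Lat

theorem lat (h1 : FinZStmt) (h2 : BasStmt) : LatStmt := by
  intro a N Ψ Λ K _ _ ξ α₀ v h hd v0 ho
  have vp : 0 < ‖v‖ := norm_pos_iff.2 v0
  refine h2 (Λ.comap (LinearMap.toSpanSingleton ℂ _ v).toAddMonoidHom) ?_ ?_
  · obtain ⟨ε, ε0, hε⟩ := h.disc
    refine ⟨ε / ‖v‖, div_pos ε0 vp, fun x hx q => (smul_eq_zero.1 (hε (x • v) hx ?_)).resolve_right v0⟩
    rwa [norm_smul, ← lt_div_iff₀ vp]
  · obtain ⟨R, hR⟩ := h.per
    obtain ⟨S, S1, S2⟩ := Lat.glob h1 h hd v0 R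
    let σ : V N → ℂ := fun y => Classical.epsilon fun s : ℂ => Pp (Ψ (α₀ + s • v)) y
    obtain ⟨B, hB⟩ := (S1.image fun y => ‖σ y‖).bddAbove
    refine ⟨B + 1, fun s => ?_⟩
    obtain ⟨x, x1, x2⟩ := hR (α₀ + s • v)
    have pp : ∀ t : ℂ, Pp (Ψ (α₀ + s • v - x + t • v)) (Ψ (α₀ + (s + t) • v)) := fun t =>
      (h.par _ _).2 (by
        rw [show α₀ + s • v - x + t • v - (α₀ + (s + t) • v) = -x by rw [add_smul]; abel]
        exact neg_mem x1)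
    obtain ⟨t, t1, y, y1, y2⟩ := S2 _ x2 fun t => (pp t).on (ho _)
    have y3 := (pp t).symm.trans y2
    have y4 : Pp (Ψ (α₀ + σ y • v)) y :=
      Classical.epsilon_spec (p := fun s : ℂ => Pp (Ψ (α₀ + s • v)) y) ⟨_, y3⟩
    refine ⟨s + t - σ y, ?_, ?_⟩
    · have := (h.par _ _).1 (y3.trans y4.symm)
      rwa [add_sub_add_left_eq_sub, ← sub_smul] at this
    · rw [show s - (s + t - σ y) = σ y - t by ring]
      exact (norm_sub_le _ _).trans (add_le_add (hB ⟨y, y1, rfl⟩) t1)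

end Pool.Agent.MP_c69980_ag.J1
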