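import Pool.Agent.MP_c69980_ag.J1.Spec
import Pool.Agent.MP_c69980_ag.S34.Lft

/-!
Discs in an embedded torus lift to the universal cover.
-/

set_option autoImplicit false

noncomputable section

namespace Pool.Agent.MP_c69980_ag.J1

open Metric Filter Topology Set
open H60 H4 E1

theorem prp : PrpStmt := by
  intro a N Ψ Λ g α₀ y₀ h₀ ε ε0
  obtain ⟨R, hR⟩ := g.per
  by_contra hn
  obtain ⟨y, hy, h⟩ := exists_seq_forall_of_frequently (not_eventually.1 hn)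
  have h' : ∀ k, ∃ β ∈ closedBall (0 : Fin a → ℂ) R ∩ {β | ∀ x ∈ Λ, ε ≤ ‖β - x - α₀‖},
      Pp (y k) (Ψ β) := fun k => by
    have := h k
    push Not at this
    obtain ⟨α, a1, a2⟩ := this
    obtain ⟨x, x1, x2⟩ := hR α
    refine ⟨α - x, ⟨mem_closedBall_zero_iff.2 x2, fun x' hx' => ?_⟩,
      a1.trans ((g.par _ _).2 (by simpa using x1))⟩
    rw [sub_sub α]
    exact a2 _ (add_mem x1 hx')
  choose β b1 b2 using h'
  obtain ⟨γ, g1, φ, φ1, φ2⟩ := ((isCompact_closedBall (0 : Fin a → ℂ) R).inter_right (by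
    simp only [ofPred_forall]
    exact isClosed_iInter fun _ => isClosed_iInter fun _ =>
      isClosed_le continuous_const (by fun_prop))).tendsto_subseq b1
  have e := pp_lim (hy.comp φ1.tendsto_atTop) ((g.hol.continuous.tendsto γ).comp φ2)
    (h₀.ne (g.nz _)) (g.nz _) (.of_forall fun k => b2 (φ k))
  simpa [ε0.not_ge] using g1.2 _ ((g.par _ _).1 (e.symm.trans h₀))

namespace Lft

open H43 (lftR lft_c1)

variable {a N : ℕ} {Ψ : (Fin a → ℂ) → V N} {Λ : AddSubgroup (Fin a → ℂ)}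

lemma rel (g : AV Ψ Λ) {p q : Fin a → ℂ} {y : V N} (hq : Pp y (Ψ q)) : Pp y (Ψ p) ↔ p - q ∈ Λ :=
  ⟨fun h => (g.par _ _).1 (h.symm.trans hq), fun h => hq.trans ((g.par _ _).2 h).symm⟩

lemma lr {y y' : V N} (h : Pp y y') (b : Fin N) : lftR b y = lftR b y' := funext fun c => h.div c b

/-- A local left inverse of the affine coordinates. -/
lemma inv (g : AV Ψ Λ) {p : Fin a → ℂ} {b : Fin N} (hb : Ψ p b ≠ 0) :
    ∃ ψ : V N → Fin a → ℂ, ContDiffAt ℂ 1 ψ (lftR b (Ψ p)) ∧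
      ∀ᶠ q in 𝓝 p, ψ (lftR b (Ψ q)) = q := by
  have c1 := contDiff_pi.1 (lft_c1 g.hol)
  have hf : ContDiffAt ℂ 1 (fun q => lftR b (Ψ q)) p :=
    contDiffAt_pi.2 fun c => (c1 c).contDiffAt.div (c1 b).contDiffAt hb
  have hd := (hf.differentiableAt one_ne_zero).hasFDerivAt
  have hi : LinearMap.ker (fderiv ℂ (fun q => lftR b (Ψ q)) p : (Fin a → ℂ) →ₗ[ℂ] V N) = ⊥ := by
    refine LinearMap.ker_eq_bot'.2 fun v hv => g.imm p v (fderiv ℂ (Ψ · b) p v / Ψ p b) ?_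
    have e : Ψ =ᶠ[𝓝 p] (Ψ · b) • fun q => lftR b (Ψ q) := by
      filter_upwards [(c1 b).continuous.continuousAt.eventually_ne hb] with q hq
      exact funext fun c => (mul_div_cancel₀ _ hq).symm
    rw [e.fderiv_eq, (((c1 b).differentiable one_ne_zero p).hasFDerivAt.smul hd).fderiv,
      add_apply, smul_apply,
      show fderiv ℂ (fun q => lftR b (Ψ q)) p v = 0 from hv, smul_zero, zero_add]
    ext c
    simp only [ContinuousLinearMap.smulRight_apply, Pi.smul_apply, smul_eq_mul, lftR]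
    ring
  obtain ⟨π, hπ⟩ := LinearMap.exists_leftInverse_of_injective _ hi
  have hF : ContDiffAt ℂ 1 (fun q => π.toContinuousLinearMap (lftR b (Ψ q))) p :=
    π.toContinuousLinearMap.contDiff.contDiffAt.comp p hf
  have hF' : HasFDerivAt (fun q => π.toContinuousLinearMap (lftR b (Ψ q)))
      (ContinuousLinearEquiv.refl ℂ (Fin a → ℂ) : (Fin a → ℂ) →L[ℂ] Fin a → ℂ) p := by
    refine (π.toContinuousLinearMap.hasFDerivAt.comp p hd).congr_fderiv ?_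
    exact ContinuousLinearMap.ext fun v => LinearMap.congr_fun hπ v
  exact ⟨fun y => hF.localInverse hF' one_ne_zero (π.toContinuousLinearMap y),
    (hF.to_localInverse hF' one_ne_zero).comp _ π.toContinuousLinearMap.contDiff.contDiffAt,
    (hF.hasStrictFDerivAt' hF' one_ne_zero).eventually_left_inverse⟩

/-- Local lifts. -/
lemma loc (g : AV Ψ Λ) (hP : PrpA Ψ Λ) {Y f : ℂ → V N} {s₀ : ℂ}
    (h1 : ∀ᶠ s in 𝓝 s₀, ∃ p, Pp (Y s) (Ψ p)) (hf : AnalyticAt ℂ f s₀)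
    (h2 : ∀ᶠ s in 𝓝 s₀, Pp (Y s) (f s)) :
    ∃ q : ℂ → Fin a → ℂ, ∀ᶠ s in 𝓝 s₀, DifferentiableAt ℂ q s ∧ Pp (Y s) (Ψ (q s)) := by
  obtain ⟨p₀, e₀⟩ := h1.self_of_nhds
  replace e₀ := h2.self_of_nhds.symm.trans e₀
  obtain ⟨b, hb⟩ : ∃ b, Ψ p₀ b ≠ 0 := Function.ne_iff.1 (g.nz p₀)
  obtain ⟨ψ, hψ, hl⟩ := inv g hb
  have c1 := contDiffAt_pi.1 (hf.contDiffAt (n := 1))
  have hu : ContDiffAt ℂ 1 (fun s => lftR b (f s)) s₀ :=
    contDiffAt_pi.2 fun c => (c1 c).div (c1 b) ((e₀.coord b).2 hb)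
  rw [← lr e₀] at hψ
  obtain ⟨ε, hε, hl⟩ := Metric.eventually_nhds_iff.1 hl
  refine ⟨fun s => ψ (lftR b (f s)), ?_⟩
  filter_upwards [(hψ.comp s₀ hu).eventually (by simp), h1, h2,
    hf.continuousAt.eventually (hP p₀ _ e₀ ε hε)] with s d ⟨p, e⟩ r sd
  refine ⟨d.differentiableAt one_ne_zero, ?_⟩
  obtain ⟨x, hx, hd⟩ := sd p (r.symm.trans e)
  have e' : Pp (Y s) (Ψ (p - x)) := (rel g e).2 (by simpa using hx)
  rwa [lr (r.symm.trans e'), hl (by rwa [dist_eq_norm])]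

/-- Two lifts have the same derivative. -/
lemma der (g : AV Ψ Λ) {Y : ℂ → V N} {u v : ℂ → Fin a → ℂ} {s₀ : ℂ}
    (hu : ∀ᶠ s in 𝓝 s₀, DifferentiableAt ℂ u s ∧ Pp (Y s) (Ψ (u s)))
    (hv : ∀ᶠ s in 𝓝 s₀, DifferentiableAt ℂ v s ∧ Pp (Y s) (Ψ (v s))) :
    deriv u s₀ = deriv v s₀ := by
  obtain ⟨ε, hε, h⟩ := g.disc
  have h1 : ∀ᶠ s in 𝓝 s₀, u s - v s ∈ Λ := by
    filter_upwards [hu, hv] with s a b
    exact (rel g b.2).1 a.2
  have h2 : u =ᶠ[𝓝 s₀] fun s => v s + (u s₀ - v s₀) := by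
    filter_upwards [h1, (hu.self_of_nhds.1.continuousAt.sub
      hv.self_of_nhds.1.continuousAt).eventually (ball_mem_nhds _ hε)] with s a b
    have := h _ (sub_mem a h1.self_of_nhds) (by rwa [dist_eq_norm] at b)
    rw [← sub_eq_zero.1 this, add_sub_cancel]
  rw [h2.deriv_eq, deriv_add_const]

end Lft

open Lft in
theorem lft : LftStmt := by
  intro a N Ψ Λ g hP c R Y hR h2 h1
  have hq : ∀ s₀ : ℂ, ∃ q : ℂ → Fin a → ℂ, s₀ ∈ ball c R →
      ∀ᶠ s in 𝓝 s₀, DifferentiableAt ℂ q s ∧ Pp (Y s) (Ψ (q s)) := fun s₀ => by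
    by_cases h : s₀ ∈ ball c R
    · obtain ⟨f, hf, -, hf'⟩ := lh_iff.1 h2 s₀ h
      obtain ⟨q, hq⟩ := loc g hP (mem_of_superset (isOpen_ball.mem_nhds h) h1) hf hf'
      exact ⟨q, fun _ => hq⟩
    · exact ⟨0, fun h' => absurd h' h⟩
  choose q hq using hq
  have hg : ∀ s₀ ∈ ball c R, (fun s => deriv (q s) s) =ᶠ[𝓝 s₀] deriv (q s₀) := by
    intro s₀ h
    filter_upwards [isOpen_ball.mem_nhds h, (hq s₀ h).eventually_nhds] with s a b
    exact der g (hq s a) b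
  have hd : DifferentiableOn ℂ (fun s => deriv (q s) s) (ball c R) := fun s₀ h =>
    ((Complex.analyticAt_iff_eventually_differentiableAt.2 ((hq s₀ h).mono fun _ => And.left)).deriv
      |>.differentiableAt.congr_of_eventuallyEq (hg s₀ h)).differentiableWithinAt
  obtain ⟨p₀, h3⟩ := h1 c (mem_ball_self hR)
  obtain ⟨p, p0, hp⟩ := hd.isExactOn_ball.with_val_at c p₀
  refine ⟨p, fun s h => (hp s h).differentiableAt.differentiableWithinAt, fun s h => ?_⟩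
  refine ((convex_ball c R).isPreconnected.induction₂
    (fun s s' => Pp (Y s) (Ψ (p s)) ↔ Pp (Y s') (Ψ (p s'))) (fun s₀ h₀ => ?_)
    (fun _ _ _ _ _ _ => Iff.trans) (fun _ _ _ _ => Iff.symm) (mem_ball_self hR) h).1 (p0 ▸ h3)
  obtain ⟨r, hr, hb⟩ := Metric.eventually_nhds_iff_ball.1
    (((hq s₀ h₀).and (hg s₀ h₀)).and (isOpen_ball.mem_nhds h₀))
  obtain ⟨k, hk⟩ := isOpen_ball.exists_eq_add_of_deriv_eq (convex_ball s₀ r).isPreconnected
    (f := p) (g := q s₀) (fun s hs => (hp s (hb s hs).2).differentiableAt.differentiableWithinAt)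
    (fun s hs => (hb s hs).1.1.1.differentiableWithinAt)
    fun s hs => (hp s (hb s hs).2).deriv.trans (hb s hs).1.2
  filter_upwards [mem_nhdsWithin_of_mem_nhds (ball_mem_nhds s₀ hr)] with s hs
  rw [rel g (hb s hs).1.1.2, rel g (hb s₀ (mem_ball_self hr)).1.1.2, hk hs,
    hk (mem_ball_self hr), add_sub_cancel_left, add_sub_cancel_left]

end Pool.Agent.MP_c69980_ag.J1
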