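import Pool.Agent.MP_c69980_ag.J1.Spec

/-!
Row LocA: equicontinuity along discs of a function pulled back from a hyperbolic image.
-/

set_option autoImplicit false

noncomputable section

namespace Pool.Agent.MP_c69980_ag.J1

open MvPolynomial Metric Filter Topology Set
open H60 H4 E1

namespace LocAx

variable {a n N : ℕ} {K : Type} [Field K] [Algebra ℂ K] {W : Set (PS n)} {z : Fin n → K}
  {ξ : Fin N → K} {Y : V n → V N}

lemma tq_val (hz : GenPt W z) (hV : Val W z ξ Y) (ℓ : V N) {b : Fin N} {y : V n}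
    (hy : y ∈ Cone W) (h0 : Y y b ≠ 0) :
    Reg z y (tq ξ ℓ b) ∧ vl z (tq ξ ℓ b) y = ∑ i, ℓ i * (Y y i / Y y b) := by
  obtain ⟨-, h⟩ := hV.val y hy b h0
  have e : tq ξ ℓ b = aeval (fun i => ξ i / ξ b) (∑ i, C (ℓ i) * X i : PR N) := by
    simp [tq, Finset.sum_div, mul_div_assoc]
  have h1 := vl_aeval (Cone.on hz hy) (fun i => (h i).1) (∑ i, C (ℓ i) * X i : PR N)
  rw [e]
  refine ⟨h1.1, h1.2.trans ?_⟩
  simp [fun i => (h i).2]

lemma on_pp {y w : V N} (h : Pp y w) (hy : On ξ y) : On ξ w := fun G d hG q =>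
  (h.eval hG).1 (hy G d hG q)

/-- Discs in a hyperbolic image move slowly. -/
lemma slow {Ψ : (Fin a → ℂ) → V N} {S : Set (V N)} (hH : HypA Ψ S) : ∃ B : ℝ, 0 < B ∧
    ∀ (α : ℂ → Fin a → ℂ) (c : ℂ) (R : ℝ), 0 < R → DifferentiableOn ℂ α (ball c R) →
      (∀ s ∈ ball c R, Ψ (α s) ∈ S) → ∀ s ∈ ball c (R / 2),
        ‖α s - α c‖ ≤ B / R * ‖s - c‖ := by
  obtain ⟨A, hA⟩ := hH
  refine ⟨2 * (|A| + 1), by positivity, fun α c R hR hd hS s hs => ?_⟩
  have hsub : ∀ t ∈ ball c (R / 2), ball t (R / 2) ⊆ ball c R := fun t ht =>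
    ball_subset_ball' (by linarith [mem_ball.1 ht])
  refine Convex.norm_image_sub_le_of_norm_deriv_le (𝕜 := ℂ) (s := ball c (R / 2))
    (fun t ht => ?_) (fun t ht => ?_) (convex_ball _ _) (mem_ball_self (half_pos hR)) hs
  · exact hd.differentiableAt (isOpen_ball.mem_nhds (hsub t ht (mem_ball_self (half_pos hR))))
  · have h1 := hA α t (R / 2) (half_pos hR) (hd.mono (hsub t ht)) fun u hu => hS u (hsub t ht hu)
    rw [le_div_iff₀ hR]
    linarith [le_abs_self A]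

end LocAx

open LocAx in
theorem locA : LocAStmt := by
  intro a n N Ψ Λ W K _ _ z ξ Y ℓ b hAV hP hL hH hC hz hV hb
  obtain ⟨A, G, d, hA, hG, G0, e⟩ := I4.rat hz fun i => ξ i / ξ b
  have e' : ∀ i, ξ i / ξ b = aeval z (A i) / aeval z G := fun i => by
    rw [e i, mul_div_cancel_left₀ _ G0]
  set φ : V n → V N := fun y i => eval y (A i) / eval y G with hφ
  have key : ∀ y ∈ Cone W, eval y G ≠ 0 → Y y b ≠ 0 ∧ Pp (Y y) (φ y) := by
    intro y hy h
    have h0 : Y y b ≠ 0 := hV.ch y hy b hb fun i => ⟨A i, G, d, hA i, hG, h, e' i⟩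
    refine ⟨h0, Y y b, h0, funext fun i => ?_⟩
    have h1 := ((hV.val y hy b h0).2 i).2
    rw [e' i, vl_eq (Cone.on hz hy) (hA i) hG h] at h1
    simp only [hφ, Pi.smul_apply, smul_eq_mul]
    rw [h1, mul_div_cancel₀ _ h0]
  refine ⟨G, d, hG, G0, fun p hp pG => ?_⟩
  obtain ⟨p0, pφ⟩ := key p hp pG
  refine ⟨(tq_val hz hV ℓ hp p0).1, fun η hη => ?_⟩
  obtain ⟨a0, ha0⟩ := hC (Y p) (hV.nz p hp) (hV.on p hp)
  set τ : (Fin a → ℂ) → ℂ := fun α => ∑ i, ℓ i * (Ψ α i / Ψ α b) with hτ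
  have hτY : ∀ y α, Pp (Y y) (Ψ α) → ∑ i, ℓ i * (Y y i / Y y b) = τ α := fun y α h =>
    Finset.sum_congr rfl fun i _ => by rw [h.div]
  have hc : ∀ i, Continuous fun α => Ψ α i := fun i =>
    (continuous_apply i).comp hAV.hol.continuous
  have b0 : Ψ a0 b ≠ 0 := (ha0.coord b).1 p0
  have hτc : ContinuousAt τ a0 :=
    tendsto_finsetSum _ fun i _ =>
      (continuousAt_const.mul ((hc i).continuousAt.div (hc b).continuousAt b0))
  have ev1 : ∀ᶠ α in 𝓝 a0, Ψ α b ≠ 0 ∧ dist (τ α) (τ a0) < η :=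
    ((hc b).continuousAt.eventually_ne b0).and (Metric.tendsto_nhds.1 hτc η hη)
  obtain ⟨e2, he2, H1⟩ := Metric.eventually_nhds_iff.1 ev1
  have hev : ∀ F : PR n, Continuous fun y : V n => eval y F := fun F =>
    MvPolynomial.continuous_eval F
  have hφc : ContinuousAt φ p := continuousAt_pi.2 fun i =>
    (hev (A i)).continuousAt.div (hev G).continuousAt pG
  have ev2 := ((hev G).continuousAt.eventually_ne pG).and
    (hφc.eventually (hP a0 (φ p) (pφ.symm.trans ha0) (e2 / 2) (half_pos he2)))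
  obtain ⟨ε, hε, H2⟩ := Metric.eventually_nhds_iff.1 ev2
  obtain ⟨B, hB, H3⟩ := slow hH
  refine ⟨ε, min (1 / 2) (e2 / 2 / B), hε, by positivity,
    (min_le_left _ _).trans (by norm_num), fun c R x hR hx hxc s hs => ?_⟩
  obtain ⟨α, hα, hαY⟩ := hL c R (fun s => Y (x s)) hR (hV.lh c R x hx) fun t ht =>
    hC _ (hV.nz _ (hx.2 t ht)) (hV.on _ (hx.2 t ht))
  have hs2 : s ∈ ball c (R / 2) := ball_subset_ball
    ((mul_le_mul_of_nonneg_right (min_le_left _ _) hR.le).trans (by linarith)) hs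
  have hs1 : s ∈ ball c R := ball_subset_ball (by linarith) hs2
  have m1 := H3 α c R hR hα (fun t ht => on_pp (hαY t ht) (hV.on _ (hx.2 t ht))) s hs2
  have m2 : B / R * ‖s - c‖ ≤ e2 / 2 := by
    have h1 : ‖s - c‖ ≤ e2 / 2 / B * R := (mem_ball_iff_norm.1 hs).le.trans
      (mul_le_mul_of_nonneg_right (min_le_right _ _) hR.le)
    refine (mul_le_mul_of_nonneg_left h1 (by positivity)).trans (le_of_eq ?_)
    field_simp
  obtain ⟨cG, H4⟩ := H2 (y := x c) (by rwa [dist_eq_norm])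
  have hcc := mem_ball_self (x := c) hR
  obtain ⟨x0, hx0, m3⟩ := H4 (α c) ((key _ (hx.2 c hcc) cG).2.symm.trans (hαY c hcc))
  have m4 : dist (α s - x0) a0 < e2 := by
    rw [dist_eq_norm, show α s - x0 - a0 = (α s - α c) + (α c - x0 - a0) by ring]
    linarith [norm_add_le (α s - α c) (α c - x0 - a0)]
  obtain ⟨n1, n2⟩ := H1 m4
  have q : Pp (Y (x s)) (Ψ (α s - x0)) :=
    (hαY s hs1).trans ((hAV.par _ _).2 (by rwa [sub_sub_cancel]))
  have h5 := tq_val hz hV ℓ (hx.2 s hs1) ((q.coord b).2 n1)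
  refine ⟨h5.1, ?_⟩
  rw [h5.2, (tq_val hz hV ℓ hp p0).2, hτY _ _ q, hτY _ _ ha0, ← dist_eq_norm]
  exact n2

end Pool.Agent.MP_c69980_ag.J1
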