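import Pool.Agent.MP_c69980_ag.J1.Spec
import Pool.Agent.MP_c69980_ag.G3H.Pack

/-!
Surfaces with a nonconstant morphism to a semi-abelian variety: discs near a good fibre.
-/

set_option autoImplicit false

noncomputable section

namespace Pool.Agent.MP_c69980_ag.J1

open MvPolynomial Metric Filter Topology Set
open H60 H4 E1

namespace LocBX

variable {n : ℕ} {j : Fin n}

lemma der_le {x : ℂ → V n} {c : ℂ} (hx : DifferentiableAt ℂ x c) (hj : x c j = 1) :
    ‖deriv (fun s => nrm j (x s)) c‖ ≤ √(lam x c * H4.sq (x c) ^ 2) := by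
  have y0 : x c ≠ 0 := fun e => by simp [e] at hj
  have d := hx.hasDerivAt
  have d1 := ((hasDerivAt_pi.1 d j).fun_inv (hj.trans_ne one_ne_zero)).fun_smul d
  rw [show deriv (fun s => nrm j (x s)) c = _ from d1.deriv,
    pi_norm_le_iff_of_nonneg (Real.sqrt_nonneg _)]
  intro i
  refine Real.le_sqrt_of_sq_le (le_of_eq_of_le ?_ ((R1.minor n (x c) (deriv x c) y0).1 i j))
  simp only [Pi.add_apply, Pi.smul_apply, smul_eq_mul, hj]
  congr 2
  ring

lemma off {W : Set (PS n)} (hW : IsZClosed W) {p : V n} (hp : p ∉ Cone W) :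
    ∃ ε : ℝ, 0 < ε ∧ ∀ y ∈ Cone W, y j = 1 → ¬‖y - p‖ < ε := by
  by_cases p0 : p = 0
  · refine ⟨1, one_pos, fun y _ hj h => ?_⟩
    have := norm_le_pi_norm y j
    rw [hj, norm_one] at this
    rw [p0, sub_zero] at h
    linarith
  obtain ⟨S, hS, rfl⟩ := hW
  obtain ⟨F, hF, h0⟩ : ∃ F ∈ S, eval (Projectivization.mk ℂ p p0).rep F ≠ 0 := by
    by_contra h
    push Not at h
    exact hp ⟨p0, h⟩
  obtain ⟨e, he⟩ := hS F hF
  obtain ⟨ε, ε0, hε⟩ := Metric.eventually_nhds_iff.1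
    ((MvPolynomial.continuous_eval F).continuousAt.eventually_ne ((eval_mk he p0).not.1 h0))
  exact ⟨ε, ε0, fun y hy _ h => hε ((dist_eq_norm y p).symm ▸ h)
    ((eval_mk he hy.1).1 (hy.2 F hF))⟩

lemma lg {v : ℂ} (hv : v ≠ 0) {η : ℝ} (hη : 0 < η) : ∃ δ : ℝ, 0 < δ ∧ ∀ w, ‖w - v‖ < δ →
    w / v ∈ Complex.slitPlane ∧ ‖Complex.log (w / v)‖ < η := by
  have h1 : v / v ∈ Complex.slitPlane := by rw [div_self hv]; exact Complex.one_mem_slitPlane
  have h2 : ContinuousAt (fun w : ℂ => w / v) v := continuousAt_id.div_const v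
  have h3 : ContinuousAt (fun w : ℂ => ‖Complex.log (w / v)‖) v := (h2.clog h1).norm
  have h4 := h3.eventually_lt (continuousAt_const (y := η)) (by simp [div_self hv, hη])
  obtain ⟨δ, δ0, hδ⟩ := Metric.eventually_nhds_iff.1
    ((h2.eventually_mem (Complex.isOpen_slitPlane.mem_nhds h1)).and h4)
  exact ⟨δ, δ0, fun w h => hδ ((dist_eq_norm w v).symm ▸ h)⟩

end LocBX

open LocBX E2.G3H in
theorem locB : LocBStmt := by
  classical
  rintro K _ _ n d j ⟨P, e, hP, P0, hE⟩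
  obtain ⟨D, hU, hX⟩ := pack K n d
  obtain ⟨T, hT⟩ := D.L.bad_exp D.S
  choose F G f hF hG G0 hq using fun c : ℂ => quot d.gen (d.u + algebraMap ℂ K (-c))
  have F0 : ∀ c, aeval d.z (F c) ≠ 0 := fun c h => d.nc c (by
    have := hq c
    rw [h, zero_div, map_neg, ← sub_eq_add_neg, sub_eq_zero] at this
    exact this)
  refine ⟨P * ∏ c ∈ insert 0 T, F c * G c, _, hP.mul (IsHomogeneous.prod _ _ _ fun c _ =>
    (hF c).mul (hG c)), ?_, fun p hp => ?_⟩
  · rw [map_mul, map_prod]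
    exact mul_ne_zero P0 (Finset.prod_ne_zero_iff.2 fun c _ => by
      rw [map_mul]; exact mul_ne_zero (F0 c) (G0 c))
  have sub : ∀ y ∈ Cone d.Uo, y ∈ Cone d.W := fun y hy => ⟨hy.1, d.sub hy.2⟩
  by_cases hW : p ∈ Cone d.W
  swap
  · obtain ⟨ε, ε0, hε⟩ := off (j := j) d.cl hW
    exact ⟨ε, 0, ε0, fun c R x R0 hx hj h =>
      absurd h (hε _ (sub _ (hx.2 c (mem_ball_self R0))) hj)⟩
  rw [map_mul, map_prod] at hp
  obtain ⟨r0, hE⟩ := hE p hW (left_ne_zero_of_mul hp)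
  have o := Cone.on d.gen hW
  have nv : ∀ c ∈ insert 0 T, vl d.z d.u p ≠ c := fun c hc h => by
    have h1 := Finset.prod_ne_zero_iff.1 (right_ne_zero_of_mul hp) c hc
    rw [map_mul] at h1
    have h2 := (vl_add o r0 (vl_const o (-c)).1).2
    rw [(vl_const o (-c)).2, h, add_neg_cancel, hq c,
      vl_eq o (hF c) (hG c) (right_ne_zero_of_mul h1)] at h2
    exact div_ne_zero (left_ne_zero_of_mul h1) (right_ne_zero_of_mul h1) h2
  set v := vl d.z d.u p with hv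
  have v0 : v ≠ 0 := nv 0 (Finset.mem_insert_self _ _)
  have nb : Complex.log v ∉ D.B := fun h => by
    have := hT _ h
    rw [Complex.exp_log v0] at this
    exact nv v (Finset.mem_insert_of_mem this) rfl
  obtain ⟨η, η0, hη⟩ := far_of_notMem lat nb
  obtain ⟨δ, δ0, hδ⟩ := lg v0 (half_pos η0)
  obtain ⟨ε, κ, ε0, κ0, κ1, hE⟩ := hE δ δ0
  obtain ⟨A, A0, hA⟩ := aHyp n D (η / 2) (|(Complex.log v).re| + η / 2) (half_pos η0)
  refine ⟨ε, √(A * (n * (‖p‖ + ε) ^ 2) ^ 2) / κ, ε0, fun c R x R0 hx hj h => ?_⟩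
  have sb : ball c (κ * R) ⊆ ball c R := ball_subset_ball (mul_le_of_le_one_left R0.le κ1)
  have hE := hE c R x R0 ⟨hx.1, fun s hs => sub _ (hx.2 s hs)⟩ h
  have hl := hA x (fun s => Complex.log v + Complex.log (vl d.z d.u (x s) / v)) c (κ * R)
    (mul_pos κ0 R0) ⟨⟨hx.1.mono sb, fun s hs => (hx.2 s (sb hs)).1⟩, fun s hs => ?_,
      fun s hs => ?_⟩ fun s hs => ?_
  · have y0 : x c ≠ 0 := (hx.2 c (mem_ball_self R0)).1
    have h1 := der_le (hx.1.differentiableAt (ball_mem_nhds c R0)) hj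
    have h2 : ‖x c‖ ≤ ‖p‖ + ε := by
      have := norm_add_le (x c - p) p
      rw [sub_add_cancel] at this
      linarith
    have h3 : H4.sq (x c) ≤ n * (‖p‖ + ε) ^ 2 := (R1.minor n (x c) 0 y0).2.2.2.2.2.1.trans
      (mul_le_mul_of_nonneg_left (pow_le_pow_left₀ (norm_nonneg _) h2 2) n.cast_nonneg)
    have h4 := pow_le_pow_left₀ (R1.sq_pos' y0).le h3 2
    have l0 : 0 ≤ lam x c * H4.sq (x c) ^ 2 := mul_nonneg (R1.lamv_nn _ _) (sq_nonneg _)
    have h5 := (Real.le_sqrt (norm_nonneg _) l0).1 h1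
    rw [le_div_iff₀ κ0]
    refine Real.le_sqrt_of_sq_le ?_
    calc (R * ‖deriv (fun s => nrm j (x s)) c‖ * κ) ^ 2
        = (κ * R) ^ 2 * ‖deriv (fun s => nrm j (x s)) c‖ ^ 2 := by ring
      _ ≤ (κ * R) ^ 2 * (lam x c * H4.sq (x c) ^ 2) := mul_le_mul_of_nonneg_left h5 (sq_nonneg _)
      _ = lam x c * (κ * R) ^ 2 * H4.sq (x c) ^ 2 := by ring
      _ ≤ _ := mul_le_mul hl h4 (sq_nonneg _) A0.le
  · have a1 := hx.1.analyticAt (isOpen_ball.mem_nhds (sb hs))
    have a2 := (vl_an a1 (mem_of_superset (isOpen_ball.mem_nhds (sb hs)) fun w hw =>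
      Cone.on d.gen (sub _ (hx.2 w hw))) (hE s hs).1).1
    exact (((a2.differentiableAt.div_const v).clog (hδ _ (hE s hs).2).1).const_add
      _).differentiableWithinAt
  · refine ⟨hX ▸ ⟨sub _ (hx.2 s (sb hs)), (hE s hs).1, ?_⟩, hU ▸ hx.2 s (sb hs)⟩
    show vl d.z d.u (x s) = Complex.exp (Complex.log v + Complex.log (vl d.z d.u (x s) / v))
    rw [Complex.exp_add, Complex.exp_log v0,
      Complex.exp_log (Complex.slitPlane_ne_zero (hδ _ (hE s hs).2).1), mul_div_cancel₀ _ v0]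
  · have h1 := (hδ _ (hE s hs).2).2
    refine ⟨hη.near.mono ?_, ?_⟩
    · rw [add_sub_cancel_left]
      linarith
    · rw [Complex.add_re]
      exact (abs_add_le _ _).trans
        (add_le_add le_rfl ((Complex.abs_re_le_norm _).trans h1.le))

end Pool.Agent.MP_c69980_ag.J1
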