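import Pool.Agent.MP_c69980_ag.J1.Spec

/-!
The Segre product of the blocks of theta functions embeds the abelian quotient.
-/

set_option autoImplicit false

noncomputable section

namespace Pool.Agent.MP_c69980_ag.J1

open Metric Filter Topology Set Finset
open E1 H43

namespace Sg

variable {t a M : ℕ} {w : Fin M → Option (Fin t)} {ϑ : (Fin a → ℂ) → Fin M → ℂ}

theorem sg_cht (y : Fin M → ℂ) {β : Cht M t} (hβ : ∀ o, w (β o) = o) :
    sg w y (cht M t β) = ∏ o, y (β o) := by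
  simp only [sg, Equiv.symm_apply_apply]
  exact if_pos hβ

theorem sg_upd (y : Fin M → ℂ) {β : Cht M t} (hβ : ∀ o, w (β o) = o) {c : Fin M}
    {k : Option (Fin t)} (hc : w c = k) :
    sg w y (cht M t (Function.update β k c)) = y c * ∏ o ∈ univ.erase k, y (β o) := by
  rw [sg_cht y fun o => by
    by_cases h : o = k
    · rw [h, Function.update_self, hc]
    · rw [Function.update_of_ne h, hβ], ← mul_prod_erase _ _ (mem_univ k), Function.update_self]
  exact congrArg _ (prod_congr rfl fun o ho => by rw [Function.update_of_ne (ne_of_mem_erase ho)])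

/-- Proportional in every block. -/
def Bl (w : Fin M → Option (Fin t)) (y y' : Fin M → ℂ) : Prop :=
  ∃ l : Option (Fin t) → ℂ, (∀ o, l o ≠ 0) ∧ ∀ c, y c = l (w c) * y' c

theorem pp_iff {y y' : Fin M → ℂ} (h : ∀ o, ∃ b, w b = o ∧ y' b ≠ 0) :
    Pp (sg w y) (sg w y') ↔ Bl w y y' := by
  constructor
  · rintro ⟨κ, κ0, e⟩
    choose β h1 h2 using h
    have e1 : ∀ c k, w c = k → y c * ∏ o ∈ univ.erase k, y (β o) =
        κ * (y' c * ∏ o ∈ univ.erase k, y' (β o)) := fun c k hc => by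
      rw [← sg_upd y h1 hc, ← sg_upd y' h1 hc, e, Pi.smul_apply, smul_eq_mul]
    have e2 : ∀ k, y (β k) ≠ 0 ∧ ∏ o ∈ univ.erase k, y (β o) ≠ 0 := fun k => by
      rw [← mul_ne_zero_iff, e1 _ k (h1 k)]
      exact mul_ne_zero κ0 (mul_ne_zero (h2 k) (prod_ne_zero_iff.2 fun o _ => h2 o))
    refine ⟨fun o => y (β o) / y' (β o), fun o => div_ne_zero (e2 o).1 (h2 o), fun c => ?_⟩
    rw [div_mul_eq_mul_div, eq_div_iff (h2 _)]
    refine mul_right_cancel₀ (e2 (w c)).2 ?_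
    linear_combination y' (β (w c)) * e1 c _ rfl - y' c * e1 _ _ (h1 (w c))
  · rintro ⟨l, l0, e⟩
    refine ⟨∏ o, l o, prod_ne_zero_iff.2 fun o _ => l0 o, funext fun i => ?_⟩
    simp only [sg, Pi.smul_apply, smul_eq_mul]
    split_ifs with hi
    · rw [← prod_mul_distrib]
      exact prod_congr rfl fun o _ => by rw [e, hi]
    · rw [mul_zero]

theorem TH_ap (s : Fin t → ℂ) (α : Fin a → ℂ) : TH w ϑ (Fin.append s α) = Th w ϑ s α := by
  simp only [TH, Fin.append_left, Fin.append_right]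

theorem ap_sub (s r : Fin t → ℂ) (α β : Fin a → ℂ) :
    (Fin.append s α : H43.Pt t a) - Fin.append r β = Fin.append (s - r) (α - β) := by
  funext i
  refine Fin.addCases (fun j => ?_) (fun j => ?_) i <;> simp

theorem ap_zero : (Fin.append (0 : Fin t → ℂ) (0 : Fin a → ℂ) : H43.Pt t a) = 0 := by
  funext i
  refine Fin.addCases (fun j => ?_) (fun j => ?_) i <;> simp

theorem Th_zero (β : Fin a → ℂ) : Th w ϑ 0 β = ϑ β := by
  funext c
  rcases h : w c with _ | j <;> simp [Th, h]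

variable (g : GA w (TH w ϑ))
include g

theorem blk (α : Fin a → ℂ) (o : Option (Fin t)) : ∃ b, w b = o ∧ ϑ α b ≠ 0 := by
  have := g.blk (Fin.append 0 α) o
  rwa [TH_ap, Th_zero] at this

theorem of_bl {α β : Fin a → ℂ} (h : Bl w (ϑ α) (ϑ β)) : ∃ s : Fin t → ℂ,
    (∀ j, |(s j).im| ≤ Real.pi) ∧ Fin.append s (α - β) ∈ Lam (TH w ϑ) := by
  obtain ⟨l, l0, e⟩ := h
  refine ⟨fun j => Complex.log (l none / l (some j)), fun j => ?_, ?_⟩
  · rw [Complex.log_im]
    exact Complex.abs_arg_le_pi _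
  · have := (g.par (Fin.append (fun j => Complex.log (l none / l (some j))) α)
      (Fin.append 0 β)).1 ⟨l none, by
        rw [TH_ap, TH_ap, Th_zero]
        funext c
        rw [Th, e c, Pi.smul_apply, smul_eq_mul]
        rcases w c with _ | j
        · exact one_mul _
        · simp only [Option.elim]
          rw [Complex.exp_log (div_ne_zero (l0 _) (l0 _)), ← mul_assoc, div_mul_cancel₀ _ (l0 _)]⟩
    rwa [ap_sub, sub_zero] at this

theorem to_bl {α β : Fin a → ℂ} {s : Fin t → ℂ} (h : Fin.append s (α - β) ∈ Lam (TH w ϑ)) :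
    Bl w (ϑ α) (ϑ β) := by
  obtain ⟨l, e⟩ := (g.par (Fin.append s α) (Fin.append 0 β)).2 (by rwa [ap_sub, sub_zero])
  obtain ⟨b, -, hb⟩ := g.blk (Fin.append s α) none
  have l0 : l ≠ 0 := fun h0 => hb (by rw [e, h0, zero_smul, Pi.zero_apply])
  rw [TH_ap, TH_ap, Th_zero] at e
  have n : ∀ o : Option (Fin t), o.elim 1 (fun j => Complex.exp (s j)) ≠ 0 := fun o => by
    rcases o with _ | j
    exacts [one_ne_zero, Complex.exp_ne_zero _]
  refine ⟨fun o => l / o.elim 1 fun j => Complex.exp (s j), fun o => div_ne_zero l0 (n o),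
    fun c => ?_⟩
  rw [div_mul_eq_mul_div, eq_div_iff (n _), mul_comm]
  exact congrFun e c

/-- The periods of the abelian quotient. -/
def lam : AddSubgroup (Fin a → ℂ) :=
  AddSubgroup.ofSub {x | ∃ s : Fin t → ℂ, Fin.append s x ∈ Lam (TH w ϑ)}
    ⟨0, 0, 1, by rw [ap_zero, one_smul]⟩ (by
      rintro x ⟨s, hs⟩ y ⟨r, hr⟩
      exact ⟨s - r, by rw [← sub_eq_add_neg, ← ap_sub]; exact g.lsub _ hs _ hr⟩)

theorem mem_lam {x : Fin a → ℂ} :
    x ∈ lam g ↔ ∃ s : Fin t → ℂ, Fin.append s x ∈ Lam (TH w ϑ) := Iff.rfl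

theorem fin (d : Disc (TH w ϑ)) : (closedBall 0 4 ∩ Lam (TH w ϑ)).Finite := by
  obtain ⟨ε, ε0, d⟩ := d
  obtain ⟨T, -, T1, T2⟩ := finite_cover_balls_of_compact
    (isCompact_closedBall (0 : H43.Pt t a) 4) (half_pos ε0)
  refine (T1.biUnion (t := fun y => ball y (ε / 2) ∩ Lam (TH w ϑ)) fun y _ =>
    Set.Subsingleton.finite fun p hp q hq => ?_).subset fun p hp => ?_
  · refine sub_eq_zero.1 (d _ (g.lsub _ hp.2 _ hq.2) ?_)
    rw [← dist_eq_norm]
    exact (dist_triangle_right p q y).trans_lt ((add_lt_add hp.1 hq.1).trans_eq (add_halves ε))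
  · obtain ⟨y, hy, h⟩ := mem_iUnion₂.1 (T2 hp.1)
    exact mem_iUnion₂.2 ⟨y, hy, h, hp.2⟩

theorem disc (d : Disc (TH w ϑ)) : ∃ ε : ℝ, 0 < ε ∧ ∀ x ∈ lam g, ‖x‖ < ε → x = 0 := by
  have h1 := (((fin g d).image fun p i => p (Fin.natAdd t i)).sdiff (t := {0})).isClosed
  obtain ⟨ε, ε0, h2⟩ := Metric.isOpen_iff.1 h1.isOpen_compl 0 fun h => h.2 rfl
  refine ⟨min ε 4, lt_min ε0 four_pos, fun x ⟨r, hr⟩ hx => by_contra fun x0 => ?_⟩
  obtain ⟨s, s1, s2⟩ := of_bl g (to_bl g (β := 0) (by rwa [sub_zero]))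
  rw [sub_zero] at s2
  refine h2 (mem_ball_zero_iff.2 (hx.trans_le (min_le_left _ _)))
    ⟨⟨Fin.append s x, ⟨mem_closedBall_zero_iff.2 ?_, s2⟩, by simp⟩, x0⟩
  refine (pi_norm_le_iff_of_nonneg four_pos.le).2 fun i => Fin.addCases (fun j => ?_)
    (fun j => ?_) i
  · have := g.lre _ s2 j
    rw [Fin.append_left] at this ⊢
    refine (Complex.norm_le_abs_re_add_abs_im _).trans ?_
    rw [this, abs_zero, zero_add]
    exact (s1 j).trans Real.pi_le_four
  · rw [Fin.append_right]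
    exact (norm_le_pi_norm x j).trans (hx.le.trans (min_le_right _ _))

omit g in
theorem hprod (h : Differentiable ℂ ϑ) (β : Cht M t) (u : Finset (Option (Fin t))) :
    Differentiable ℂ fun q => ∏ o ∈ u, ϑ q (β o) := fun q =>
  (HasFDerivAt.finsetProd (g := fun o q => ϑ q (β o)) fun o _ =>
    (differentiable_pi.1 h (β o) q).hasFDerivAt).differentiableAt

omit g in
theorem hol (h : Differentiable ℂ ϑ) : Differentiable ℂ fun α => sg w (ϑ α) := by
  refine differentiable_pi.2 fun i => ?_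
  simp only [sg]
  split_ifs
  · exact hprod h _ _
  · exact differentiable_const _

theorem imm (h : SemiAb w ϑ) (α v : Fin a → ℂ) (l : ℂ)
    (e : fderiv ℂ (fun α => sg w (ϑ α)) α v = l • sg w (ϑ α)) : v = 0 := by
  choose β h1 h2 using blk g α
  let G : (Fin a → ℂ) → ℂ := fun q => ∏ o ∈ univ.erase none, ϑ q (β o)
  have G0 : G α ≠ 0 := prod_ne_zero_iff.2 fun o _ => h2 o
  have G1 : DifferentiableAt ℂ G α := hprod h.hol β _ α
  refine h.imm α v (l - fderiv ℂ G α v / G α) fun b hb => ?_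
  have d1 := hasFDerivAt_pi'.1 (hol (w := w) h.hol α).hasFDerivAt
    (cht M t (Function.update β none b))
  have d2 := (hasFDerivAt_pi'.1 (h.hol α).hasFDerivAt b).mul G1.hasFDerivAt
  simp only [sg_upd _ h1 hb] at d1
  have d3 := DFunLike.congr_fun (d1.unique d2) v
  simp only [ContinuousLinearMap.comp_apply, ContinuousLinearMap.proj_apply, e, Pi.smul_apply,
    sg_upd _ h1 hb, ContinuousLinearMap.add_apply, ContinuousLinearMap.smul_apply,
    smul_eq_mul] at d3
  refine mul_left_cancel₀ G0 ?_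
  have d4 : G α * (fderiv ℂ G α v / G α) = fderiv ℂ G α v := mul_div_cancel₀ _ G0
  linear_combination -d3 + ϑ α b * d4

end Sg

theorem seg : SegStmt := by
  intro t a M w ϑ h g d
  refine ⟨Sg.lam g, Sg.hol h.hol, fun α h0 => ?_, fun α β => ?_, Sg.disc g d, ?_, Sg.imm g h⟩
  · choose β h1 h2 using Sg.blk g α
    exact prod_ne_zero_iff.2 (fun o _ => h2 o) ((Sg.sg_cht _ h1).symm.trans (congrFun h0 _))
  · rw [Sg.pp_iff (Sg.blk g β)]
    exact ⟨fun H => (Sg.of_bl g H).imp fun _ H => H.2, fun ⟨_, H⟩ => Sg.to_bl g H⟩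
  · refine h.per.imp fun R hR α => ?_
    obtain ⟨s, β, l, e, hβ⟩ := hR α
    exact ⟨β, ⟨s, l, by rw [← Sg.ap_zero, Sg.TH_ap, Sg.TH_ap, e]⟩, hβ⟩

end Pool.Agent.MP_c69980_ag.J1
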