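import Pool.Agent.MP_c69980_ag.I4.Base
import Pool.Agent.MP_c69980_ag.H43.Spec5
import Pool.Agent.MP_c69980_ag.G3H.SpecB

/-!
Surfaces with a nonconstant morphism to a semi-abelian variety: statements.
-/

set_option autoImplicit false

noncomputable section

namespace Pool.Agent.MP_c69980_ag.J1

open MvPolynomial Metric Filter Topology Set
open H60 H4 E1

section Defs

variable {t a M n N : ℕ}

/-- The charts, numbered. -/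
def cht (M t : ℕ) : H43.Cht M t ≃ Fin (Fintype.card (H43.Cht M t)) := Fintype.equivFin _

/-- The Segre product of the blocks. -/
def sg {A : Type} [Field A] (w : Fin M → Option (Fin t)) (y : Fin M → A) :
    Fin (Fintype.card (H43.Cht M t)) → A := fun i =>
  if ∀ o, w ((cht M t).symm i o) = o then ∏ o, y ((cht M t).symm i o) else 0

/-- `Ψ` embeds the compact torus `ℂ^a / Λ` in projective space. -/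
structure AV (Ψ : (Fin a → ℂ) → V N) (Λ : AddSubgroup (Fin a → ℂ)) : Prop where
  hol : Differentiable ℂ Ψ
  nz : ∀ α, Ψ α ≠ 0
  par : ∀ α β, Pp (Ψ α) (Ψ β) ↔ α - β ∈ Λ
  disc : ∃ ε : ℝ, 0 < ε ∧ ∀ x ∈ Λ, ‖x‖ < ε → x = 0
  per : ∃ R : ℝ, ∀ α, ∃ x ∈ Λ, ‖α - x‖ ≤ R
  imm : ∀ α v (l : ℂ), fderiv ℂ Ψ α v = l • Ψ α → v = 0

/-- Continuity of the inverse. -/
def PrpA (Ψ : (Fin a → ℂ) → V N) (Λ : AddSubgroup (Fin a → ℂ)) : Prop :=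
  ∀ α₀ y₀, Pp y₀ (Ψ α₀) → ∀ ε : ℝ, 0 < ε →
    ∀ᶠ y in 𝓝 y₀, ∀ α, Pp y (Ψ α) → ∃ x ∈ Λ, ‖α - x - α₀‖ < ε

/-- Discs lift to the universal cover. -/
def LftA (Ψ : (Fin a → ℂ) → V N) : Prop :=
  ∀ (c : ℂ) (R : ℝ) (Y : ℂ → V N), 0 < R → LH (ball c R) Y →
    (∀ s ∈ ball c R, ∃ α, Pp (Y s) (Ψ α)) → ∃ α : ℂ → Fin a → ℂ,
      DifferentiableOn ℂ α (ball c R) ∧ ∀ s ∈ ball c R, Pp (Y s) (Ψ (α s))

/-- A closed cone. -/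
def Cn0 (C : Set (V N)) : Prop := IsClosed C ∧ ∀ y ∈ C, ∀ l : ℂ, l • y ∈ C

/-- The part of the torus in the cone `C` is hyperbolic. -/
def HypA (Ψ : (Fin a → ℂ) → V N) (C : Set (V N)) : Prop :=
  ∃ A : ℝ, ∀ (α : ℂ → Fin a → ℂ) (c : ℂ) (R : ℝ), 0 < R → DifferentiableOn ℂ α (ball c R) →
    (∀ s ∈ ball c R, Ψ (α s) ∈ C) → R * ‖deriv α c‖ ≤ A

variable {K : Type} [Field K] [Algebra ℂ K]

/-- The ratios of `ξ` generate a field of transcendence degree at most one. -/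
def Dep1 (ξ : Fin N → K) : Prop :=
  ∀ f ∈ H43.K0 ξ, ∀ g ∈ H43.K0 ξ, ¬ AlgebraicIndependent ℂ ![f, g]

/-- The specialisations of `ξ` lie on the torus. -/
def ClA (Ψ : (Fin a → ℂ) → V N) (ξ : Fin N → K) : Prop :=
  ∀ y, y ≠ 0 → On ξ y → ∃ α, Pp y (Ψ α)

/-- `Y` gives the values of the morphism `ξ` on the cone over `W`. -/
structure Val (W : Set (PS n)) (z : Fin n → K) (ξ : Fin N → K) (Y : V n → V N) : Prop where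
  nz : ∀ y ∈ Cone W, Y y ≠ 0
  on : ∀ y ∈ Cone W, On ξ (Y y)
  val : ∀ y ∈ Cone W, ∀ b, Y y b ≠ 0 →
    ξ b ≠ 0 ∧ ∀ i, Reg z y (ξ i / ξ b) ∧ vl z (ξ i / ξ b) y = Y y i / Y y b
  ch : ∀ y ∈ Cone W, ∀ b, ξ b ≠ 0 → (∀ i, Reg z y (ξ i / ξ b)) → Y y b ≠ 0
  lh : ∀ c R x, Dk W c R x → LH (ball c R) fun s => Y (x s)

/-- The function `ℓ (ξ) / ξ b`. -/
def tq (ξ : Fin N → K) (ℓ : V N) (b : Fin N) : K := (∑ i, algebraMap ℂ K (ℓ i) * ξ i) / ξ b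

/-- Near a general point the function `T` is equicontinuous along discs. -/
def Eq1 (W : Set (PS n)) (z : Fin n → K) (T : K) : Prop :=
  ∃ (P : PR n) (e : ℕ), P.IsHomogeneous e ∧ aeval z P ≠ 0 ∧ ∀ p ∈ Cone W, eval p P ≠ 0 →
    Reg z p T ∧ ∀ η : ℝ, 0 < η → ∃ ε κ : ℝ, 0 < ε ∧ 0 < κ ∧ κ ≤ 1 ∧ ∀ c R x, 0 < R →
      Dk W c R x → ‖x c - p‖ < ε → ∀ s ∈ ball c (κ * R),
        Reg z (x s) T ∧ ‖vl z T (x s) - vl z T p‖ < η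

end Defs

/-! ### Rows Seg, Cl, Dep, Unit: the abelian quotient -/

def SegStmt : Prop := ∀ (t a M : ℕ) (w : Fin M → Option (Fin t)) (ϑ : (Fin a → ℂ) → Fin M → ℂ),
  H43.SemiAb w ϑ → H43.GA w (H43.TH w ϑ) → H43.Disc (H43.TH w ϑ) →
  ∃ Λ, AV (fun α => sg w (ϑ α)) Λ

def ClStmt : Prop := ∀ (t a M : ℕ) (w : Fin M → Option (Fin t)) (ϑ : (Fin a → ℂ) → Fin M → ℂ)
  (K : Type) [Field K] [Algebra ℂ K] (u : Fin M → K), H43.SemiAb w ϑ →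
  (∀ (F : PR M) (d : ℕ), F.IsHomogeneous d → (∀ s α, eval (H43.Th w ϑ s α) F = 0) →
    aeval u F = 0) → ClA (fun α => sg w (ϑ α)) (sg w u)

def DepStmt : Prop := ∀ (t M : ℕ) (w : Fin M → Option (Fin t)) (K : Type) [Field K] [Algebra ℂ K]
  (u : Fin M → K), Algebra.trdeg ℂ K = 2 → ¬ Algebra.IsAlgebraic (H43.K0 u) K → Dep1 (sg w u)

def UnitStmt : Prop := ∀ (t M n : ℕ) (w : Fin M → Option (Fin t)) (U : Set (PS n)) (K : Type)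
  [Field K] [Algebra ℂ K] (z : Fin n → K) (u : Fin M → K), U.Nonempty →
  (∀ x ∈ U, ∀ o, ∃ b, w b = o ∧ u b ≠ 0 ∧ ∀ c, u c / u b ∈ locRing z x) →
  (∃ c b, ∀ s : ℂ, u c / u b ≠ algebraMap ℂ K s) → ¬ I4.NC (sg w u) →
  ∃ v : K, (∀ x ∈ U, v ∈ locRing z x ∧ v⁻¹ ∈ locRing z x) ∧ ∀ s : ℂ, v ≠ algebraMap ℂ K s

/-! ### Rows Prp, Lft, Bro: discs in the torus -/

def PrpStmt : Prop := ∀ (a N : ℕ) (Ψ : (Fin a → ℂ) → V N) (Λ : AddSubgroup (Fin a → ℂ)),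
  AV Ψ Λ → PrpA Ψ Λ

def LftStmt : Prop := ∀ (a N : ℕ) (Ψ : (Fin a → ℂ) → V N) (Λ : AddSubgroup (Fin a → ℂ)),
  AV Ψ Λ → PrpA Ψ Λ → LftA Ψ

/-- The alternative of Brody. -/
def BroStmt : Prop := ∀ (a N : ℕ) (Ψ : (Fin a → ℂ) → V N) (Λ : AddSubgroup (Fin a → ℂ))
  (C : Set (V N)), AV Ψ Λ → Cn0 C →
  (∃ α₀ v : Fin a → ℂ, v ≠ 0 ∧ ∀ s : ℂ, Ψ (α₀ + s • v) ∈ C) ∨ HypA Ψ C

/-! ### Rows FinZ, Bas, Lat, Ell: the image contains a line -/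

/-- Hypersurface sections of a curve are finite. -/
def FinZStmt : Prop := ∀ (N : ℕ) (K : Type) [Field K] [Algebra ℂ K] (ξ : Fin N → K) (F : PR N)
  (d : ℕ), Dep1 ξ → F.IsHomogeneous d → aeval ξ F ≠ 0 →
  ∃ S : Set (V N), S.Finite ∧ ∀ y, y ≠ 0 → On ξ y → eval y F = 0 → ∃ v ∈ S, Pp y v

def BasStmt : Prop := ∀ Λ : AddSubgroup ℂ, (∃ ε : ℝ, 0 < ε ∧ ∀ x ∈ Λ, ‖x‖ < ε → x = 0) →
  (∃ R : ℝ, ∀ s, ∃ x ∈ Λ, ‖s - x‖ ≤ R) → ∃ L : PeriodPair, ∀ s, s ∈ L.lattice ↔ s ∈ Λ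

def LatStmt : Prop := ∀ (a N : ℕ) (Ψ : (Fin a → ℂ) → V N) (Λ : AddSubgroup (Fin a → ℂ))
  (K : Type) [Field K] [Algebra ℂ K] (ξ : Fin N → K) (α₀ v : Fin a → ℂ), AV Ψ Λ → Dep1 ξ →
  v ≠ 0 → (∀ s : ℂ, On ξ (Ψ (α₀ + s • v))) →
  ∃ L : PeriodPair, ∀ s : ℂ, s ∈ L.lattice ↔ s • v ∈ Λ

def EllStmt : Prop := ∀ (N : ℕ) (L : PeriodPair) (θ : ℂ → V N) (K : Type) [Field K] [Algebra ℂ K]
  (ξ : Fin N → K), Differentiable ℂ θ → (∀ s, θ s ≠ 0) →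
  (∀ s s', (∃ l : ℂ, θ s = l • θ s') ↔ s - s' ∈ L.lattice) → (∀ s, On ξ (θ s)) → Dep1 ξ →
  ∃ η : Fin 3 → K, I4.NC η ∧ aeval η (I4.cub L) = 0

/-! ### Rows Wan, Ext, Val, Tm, LocA, LocB: the image is hyperbolic -/

def WanStmt : Prop := ∀ (a N : ℕ) (Ψ : (Fin a → ℂ) → V N) (Λ : AddSubgroup (Fin a → ℂ))
  (C : Set (V N)) (F : ℂ × ℂ → V N) (q : ℂ × ℂ), AV Ψ Λ → LftA Ψ → Cn0 C → HypA Ψ C →
  AnalyticAt ℂ F q → (∀ᶠ p in 𝓝[≠] q, F p ∈ C ∧ ∃ α, Pp (F p) (Ψ α)) → F q ≠ 0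

def ExtStmt : Prop := ∀ (n N : ℕ) (W : Set (PS n)) (K : Type) [Field K] [Algebra ℂ K]
  (z : Fin n → K) (ξ : Fin N → K), GenPt W z → I4.Rg2 W z → WC W → ξ ≠ 0 →
  (∀ (F : ℂ × ℂ → V N) (q : ℂ × ℂ), AnalyticAt ℂ F q →
    (∀ᶠ p in 𝓝[≠] q, F p ≠ 0 ∧ On ξ (F p)) → F q ≠ 0) → I4.Def W z ξ

def ValStmt : Prop := ∀ (n N : ℕ) (W : Set (PS n)) (K : Type) [Field K] [Algebra ℂ K]
  (z : Fin n → K) (ξ : Fin N → K), GenPt W z → I4.Def W z ξ → ∃ Y, Val W z ξ Y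

/-- A pencil without base points. -/
def TmStmt : Prop := ∀ (n N : ℕ) (W : Set (PS n)) (K : Type) [Field K] [Algebra ℂ K]
  (z : Fin n → K) (ξ : Fin N → K) (Y : V n → V N), GenPt W z → Val W z ξ Y → I4.NC ξ → Dep1 ξ →
  ∃ (ℓ : V N) (b : Fin N), ξ b ≠ 0 ∧ (∀ s : ℂ, tq ξ ℓ b ≠ algebraMap ℂ K s) ∧
    ∀ x ∈ W, tq ξ ℓ b ∈ locRing z x ∨ (tq ξ ℓ b)⁻¹ ∈ locRing z x

def LocAStmt : Prop := ∀ (a n N : ℕ) (Ψ : (Fin a → ℂ) → V N) (Λ : AddSubgroup (Fin a → ℂ))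
  (W : Set (PS n)) (K : Type) [Field K] [Algebra ℂ K] (z : Fin n → K) (ξ : Fin N → K)
  (Y : V n → V N) (ℓ : V N) (b : Fin N), AV Ψ Λ → PrpA Ψ Λ → LftA Ψ → HypA Ψ {y | On ξ y} →
  ClA Ψ ξ → GenPt W z → Val W z ξ Y → ξ b ≠ 0 → Eq1 W z (tq ξ ℓ b)

def LocBStmt : Prop := ∀ (K : Type) [Field K] [Algebra ℂ K] (n : ℕ) (d : E2.G3H.Dat K n)
  (j : Fin n), Eq1 d.W d.z d.u → ∃ (P : PR n) (e : ℕ), P.IsHomogeneous e ∧ aeval d.z P ≠ 0 ∧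
    ∀ p, eval p P ≠ 0 → Good2 d.Uo j p

end Pool.Agent.MP_c69980_ag.J1
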