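import Pool.Agent.MP_c69980_ag.J1.Spec

/-!
A pencil without base points.
-/

set_option autoImplicit false

noncomputable section

namespace Pool.Agent.MP_c69980_ag.J1

open MvPolynomial Set
open H60 H4 E1

namespace Tm

variable {n N : ℕ} {K : Type} [Field K] [Algebra ℂ K] {z : Fin n → K} {ξ : Fin N → K}

lemma lin {y : V n} (hy : On z y) (ℓ : V N) {b : Fin N} (h : ∀ i, Reg z y (ξ i / ξ b)) :
    Reg z y (tq ξ ℓ b) ∧ vl z (tq ξ ℓ b) y = ∑ i, ℓ i * vl z (ξ i / ξ b) y := by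
  have h1 := vl_aeval hy h (∑ i, C (ℓ i) * X i)
  have h2 : aeval (fun i => ξ i / ξ b) (∑ i, C (ℓ i) * X i : PR N) = tq ξ ℓ b := by
    simp [tq, Finset.sum_div, mul_div_assoc]
  rw [h2] at h1
  simpa using h1

lemma pick (hξ : I4.NC ξ) {b : Fin N} (hb : ξ b ≠ 0) {S : Set (V N)} (hS : S.Finite) :
    ∃ ℓ : V N, (∀ s : ℂ, tq ξ ℓ b ≠ algebraMap ℂ K s) ∧ ∀ v ∈ S, v ≠ 0 → ∑ i, ℓ i * v i ≠ 0 := by
  classical
  have : Finite ↥(S \ {0}) := (hS.subset sdiff_subset).to_subtype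
  obtain ⟨ℓ, hℓ⟩ := Submodule.exists_forall_notMem_of_forall_ne_top
    (fun o : Option ↥(S \ {0}) => (o.elim
      ((Submodule.span ℂ {ξ b}).comap (Fintype.linearCombination ℂ ξ))
      fun v => LinearMap.ker (Fintype.linearCombination ℂ (v : V N)) : Submodule ℂ (V N))) (by
    rintro (_ | v) e
    · have h1 : ∀ i, ∃ c : ℂ, c • ξ b = ξ i := fun i => by
        have := (Submodule.eq_top_iff'.1 e) (Pi.single i 1)
        simpa [Submodule.mem_span_singleton] using this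
      choose c hc using h1
      exact hξ ⟨c, ξ b, fun i => by rw [← hc i, Algebra.smul_def, mul_comm]⟩
    · refine v.2.2 (funext fun i => ?_)
      simpa using (Submodule.eq_top_iff'.1 e) (Pi.single i 1))
  refine ⟨ℓ, fun s e => hℓ none ?_, fun v hv h0 e => hℓ (some ⟨v, hv, h0⟩) ?_⟩
  · rw [tq, div_eq_iff hb] at e
    exact Submodule.mem_span_singleton.2 ⟨s, by
      simp only [Fintype.linearCombination_apply, Algebra.smul_def, e]⟩
  · simpa [Fintype.linearCombination_apply] using e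

end Tm

theorem tm (h : FinZStmt) : TmStmt := by
  intro n N W K _ _ z ξ Y hz hY hξ hd
  obtain ⟨b, hb⟩ : ∃ b, ξ b ≠ 0 := by
    by_contra q
    exact hξ ⟨0, 0, fun i => by simpa using not_not.1 fun e => q ⟨i, e⟩⟩
  obtain ⟨S, hS, k⟩ := h N K ξ (X b) 1 hd (isHomogeneous_X _ _) (by simpa using hb)
  obtain ⟨ℓ, h1, h2⟩ := Tm.pick hξ hb hS
  refine ⟨ℓ, b, hb, h1, fun x hx => ?_⟩
  have o := I4.on_rep hz (I4.sub_zcl hx)
  have hc : x.rep ∈ Cone W := ⟨x.rep_nonzero, by rwa [Projectivization.mk_rep]⟩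
  rw [I4.loc_iff o, I4.loc_iff o]
  by_cases e : Y x.rep b = 0
  · obtain ⟨v, hv, c, c0, ec⟩ := k _ (hY.nz _ hc) (hY.on _ hc) (by simpa using e)
    obtain ⟨a, ha⟩ := Function.ne_iff.1 (hY.nz _ hc)
    obtain ⟨a0, r⟩ := hY.val _ hc a ha
    obtain ⟨r1, r2⟩ := Tm.lin o ℓ fun i => (r i).1
    have h3 : vl z (tq ξ ℓ a) x.rep = c * (∑ i, ℓ i * v i) / Y x.rep a := by
      rw [r2, Finset.mul_sum, Finset.sum_div]
      refine Finset.sum_congr rfl fun i _ => ?_
      rw [(r i).2, congrFun ec i, Pi.smul_apply, smul_eq_mul]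
      ring
    have h4 : v ≠ 0 := fun q => hY.nz _ hc (by rw [ec, q, smul_zero])
    have h5 := (vl_div o (r b).1
      ⟨r1, h3 ▸ div_ne_zero (mul_ne_zero c0 (h2 v hv h4)) ha⟩).1
    rw [tq, div_div_div_cancel_right₀ a0] at h5
    exact Or.inr (by rwa [tq, inv_div])
  · exact Or.inl (Tm.lin o ℓ fun i => ((hY.val _ hc b e).2 i).1).1

end Pool.Agent.MP_c69980_ag.J1
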