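import Pool.Agent.MP_c69980_ag.J1.Spec

/-!
If the map to the abelian quotient is constant, a torus coordinate is a nonconstant unit.
-/

set_option autoImplicit false

namespace Pool.Agent.MP_c69980_ag.J1

open Finset H60 H43

theorem unitB : UnitStmt := by
  intro t M n w U K _ _ z u ⟨x₀, hx₀⟩ hr ⟨c₀, b₀, hc⟩ nc
  obtain ⟨κ, l, e⟩ := not_not.1 nc
  obtain ⟨β, hβ⟩ := exists_ch (w := w) (y := u) fun o =>
    (hr x₀ hx₀ o).imp fun _ h => ⟨h.1, h.2.1⟩
  have s1 : ∀ c k, w c = k → sg w u (cht M t (Function.update β k c)) =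
      u c * ∏ o ∈ univ.erase k, u (β o) := fun c k hc => by
    simp only [sg, Equiv.symm_apply_apply]
    rw [if_pos fun o => by
      by_cases h : o = k
      · rw [h, Function.update_self, hc]
      · rw [Function.update_of_ne h, (hβ o).1], ← mul_prod_erase _ _ (mem_univ k),
      Function.update_self]
    exact congrArg _ (prod_congr rfl fun o ho => by rw [Function.update_of_ne (ne_of_mem_erase ho)])
  have s2 : ∀ c, ∃ k : ℂ, u c = algebraMap ℂ K k * u (β (w c)) := fun c => by
    have p0 : ∏ o ∈ univ.erase (w c), u (β o) ≠ 0 := prod_ne_zero_iff.2 fun o _ => (hβ o).2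
    have a1 := s1 c _ rfl
    have a2 := s1 (β (w c)) _ (hβ (w c)).1
    rw [e] at a1 a2
    have a3 : algebraMap ℂ K (κ (cht M t (Function.update β (w c) (β (w c))))) ≠ 0 := fun q =>
      mul_ne_zero (hβ _).2 p0 (by rw [← a2, q, mul_zero])
    refine ⟨κ (cht M t (Function.update β (w c) c)) / κ (cht M t (Function.update β (w c)
      (β (w c)))), mul_right_cancel₀ p0 ?_⟩
    rw [map_div₀, mul_assoc, ← a1, ← a2]
    field_simp
  choose k hk using s2
  by_cases h : ∀ o, ∃ s : ℂ, u (β o) / u (β none) = algebraMap ℂ K s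
  · choose s hs using h
    refine (hc (k c₀ * s (w c₀) / (k b₀ * s (w b₀))) ?_).elim
    rw [map_div₀, map_mul, map_mul, ← hs, ← hs, ← mul_div_assoc, ← mul_div_assoc, ← hk, ← hk,
      div_div_div_cancel_right₀ (hβ none).2]
  obtain ⟨o, ho⟩ := not_forall.1 h
  have key : ∀ x ∈ U, ∀ o o', u (β o) / u (β o') ∈ locRing z x := fun x hx o o' => by
    obtain ⟨b, b1, b2, b3⟩ := hr x hx o'
    have : u (β o) / u (β o') = u (β o) / u b * algebraMap ℂ K (k b) := by
      have q := hk b
      rw [b1] at q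
      have := (hβ o').2
      field_simp
      rw [q]
      ring
    exact this ▸ mul_mem (b3 _) (Subalgebra.algebraMap_mem _ _)
  exact ⟨_, fun x hx => ⟨key x hx o none, by rw [inv_div]; exact key x hx none o⟩,
    fun s q => ho ⟨s, q⟩⟩

end Pool.Agent.MP_c69980_ag.J1
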