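import Pool.Agent.MP_c69980_ag.J1.Spec

/-!
The values of a morphism on the cone over its source.
-/

set_option autoImplicit false

noncomputable section

namespace Pool.Agent.MP_c69980_ag.J1

open MvPolynomial Metric Filter Topology Set
open H60 H4 E1

namespace ValX

variable {n N : ℕ} {K : Type} [Field K] [Algebra ℂ K] {z : Fin n → K} {ξ : Fin N → K} {y : V n}
  {l : K}

lemma quo (hy : On z y) (l0 : l ≠ 0) (h : ∀ i, Reg z y (l * ξ i)) {b : Fin N}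
    (hb : vl z (l * ξ b) y ≠ 0) : ξ b ≠ 0 ∧ ∀ i, Reg z y (ξ i / ξ b) ∧
      vl z (ξ i / ξ b) y = vl z (l * ξ i) y / vl z (l * ξ b) y := by
  refine ⟨fun q => hb (by rw [q, mul_zero]; exact (vl_zero hy).2), fun i => ?_⟩
  have h1 := vl_inv hy ⟨h b, hb⟩
  have h2 := vl_mul hy (h i) h1.1
  rw [h1.2, ← div_eq_mul_inv, ← div_eq_mul_inv, mul_div_mul_left _ _ l0] at h2
  exact h2

lemma chart (hy : On z y) (h : ∀ i, Reg z y (l * ξ i)) {i : Fin N} (hi : vl z (l * ξ i) y ≠ 0)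
    {b : Fin N} (hb : ξ b ≠ 0) (hr : Reg z y (ξ i / ξ b)) : vl z (l * ξ b) y ≠ 0 := by
  intro q
  have h2 := (vl_mul hy (h b) hr).2
  rw [q, zero_mul, mul_assoc, mul_div_cancel₀ _ hb] at h2
  exact hi h2

end ValX

open ValX in
theorem val : ValStmt := by
  intro n N W K _ _ z ξ hz hd
  have ex : ∀ y ∈ Cone W, ∃ l : K, l ≠ 0 ∧ (∀ i, Reg z y (l * ξ i)) ∧
      ∃ i, vl z (l * ξ i) y ≠ 0 := by
    rintro y ⟨y0, hy⟩
    obtain ⟨l, l0, lr, i, hi⟩ := hd _ hy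
    have hp : Pp y (Projectivization.mk ℂ y y0).rep := Pp.symm (rep_mk y0)
    refine ⟨l, l0, fun i => hp.reg (lr i), i, ?_⟩
    rwa [hp.vl (I4.on_rep hz (I4.sub_zcl hy)) (lr i)]
  choose! l l0 lr lv using ex
  have hnz : ∀ y ∈ Cone W, (fun i => vl z (l y * ξ i) y) ≠ 0 := fun y hy =>
    Function.ne_iff.2 (lv y hy)
  have hval : ∀ y ∈ Cone W, ∀ b, vl z (l y * ξ b) y ≠ 0 → ξ b ≠ 0 ∧ ∀ i, Reg z y (ξ i / ξ b) ∧
      vl z (ξ i / ξ b) y = vl z (l y * ξ i) y / vl z (l y * ξ b) y := fun y hy b hb =>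
    quo (Cone.on hz hy) (l0 y hy) (lr y hy) hb
  have hch : ∀ y ∈ Cone W, ∀ b, ξ b ≠ 0 → (∀ i, Reg z y (ξ i / ξ b)) →
      vl z (l y * ξ b) y ≠ 0 := fun y hy b hb hr => by
    obtain ⟨i, hi⟩ := lv y hy
    exact chart (Cone.on hz hy) (lr y hy) hi hb (hr i)
  refine ⟨fun y i => vl z (l y * ξ i) y, hnz, fun y hy F d hF h => ?_, hval, hch,
    fun c R x hx => lh_iff.2 fun t ht => ?_⟩
  · have o := Cone.on hz hy
    rw [← (vl_aeval o (lr y hy) F).2, aeval_scale hF, h, mul_zero]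
    exact (vl_zero o).2
  · obtain ⟨b, hb⟩ := lv _ (hx.2 t ht)
    obtain ⟨b0, hr⟩ := hval _ (hx.2 t ht) b hb
    have hm : ∀ᶠ w in 𝓝 t, x w ∈ Cone W := mem_of_superset (isOpen_ball.mem_nhds ht) hx.2
    have ha := fun i => vl_an (hx.1.analyticAt (isOpen_ball.mem_nhds ht))
      (hm.mono fun w hw => Cone.on hz hw) (hr i).1
    refine ⟨fun w i => vl z (ξ i / ξ b) (x w), analyticAt_pi_iff.2 fun i => (ha i).1,
      Function.ne_iff.2 ⟨b, ?_⟩, ?_⟩
    · show vl z (ξ b / ξ b) (x t) ≠ 0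
      rw [(hr b).2, div_self hb]
      exact one_ne_zero
    · filter_upwards [hm, eventually_all.2 fun i => (ha i).2] with w hw hw'
      have h1 := hch _ hw b b0 hw'
      refine ⟨_, h1, funext fun i => ?_⟩
      show vl z (l (x w) * ξ i) (x w) = vl z (l (x w) * ξ b) (x w) * vl z (ξ i / ξ b) (x w)
      rw [((hval _ hw b h1).2 i).2, mul_div_cancel₀ _ h1]

end Pool.Agent.MP_c69980_ag.J1
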