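import Pool.Agent.MP_c69980_ag.J1.Spec
import Pool.Agent.MP_c69980_ag.I4.Wan

/-!
Analytic maps from a punctured surface germ to a hyperbolic part of a complex torus.
-/

set_option autoImplicit false

namespace Pool.Agent.MP_c69980_ag.J1

open Metric Filter Topology Set
open H60 H4 E1

namespace WanX

variable {a N : ℕ} {Ψ : (Fin a → ℂ) → V N}

theorem pp_trans {y w u : V N} (h : Pp y w) (h' : Pp w u) : Pp y u := by
  obtain ⟨c, hc, rfl⟩ := h
  obtain ⟨e, he, rfl⟩ := h'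
  exact ⟨c * e, mul_ne_zero hc he, smul_smul c e u⟩

/-- On balls of a fixed size one coordinate dominates. -/
theorem unif (hc : Continuous Ψ) (h0 : ∀ α, Ψ α ≠ 0) (R : ℝ) : ∃ η K : ℝ, 0 < η ∧ 0 < K ∧
    ∀ t₀ ∈ closedBall (0 : Fin a → ℂ) R, ∃ j,
      ∀ t ∈ ball t₀ η, ∀ y, Pp y (Ψ t) → ‖y‖ ≤ K * ‖y j‖ := by
  refine (isCompact_closedBall (0 : Fin a → ℂ) R).induction_on (p := fun s => ∃ η K : ℝ, 0 < η ∧
    0 < K ∧ ∀ t₀ ∈ s, ∃ j, ∀ t ∈ ball t₀ η, ∀ y, Pp y (Ψ t) → ‖y‖ ≤ K * ‖y j‖)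
    ⟨1, 1, one_pos, one_pos, fun _ h => h.elim⟩
    (fun s s' hs ⟨η, K, h1, h2, h3⟩ => ⟨η, K, h1, h2, fun t ht => h3 t (hs ht)⟩) ?_ ?_
  · rintro s s' ⟨η, K, h1, h2, h3⟩ ⟨η', K', h1', h2', h3'⟩
    refine ⟨min η η', max K K', lt_min h1 h1', lt_max_of_lt_left h2, fun t₀ ht => ?_⟩
    rcases ht with ht | ht
    · exact (h3 t₀ ht).imp fun j hj t h4 y hy => (hj t (ball_subset_ball (min_le_left _ _) h4)
        y hy).trans (mul_le_mul_of_nonneg_right (le_max_left _ _) (norm_nonneg _))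
    · exact (h3' t₀ ht).imp fun j hj t h4 y hy => (hj t (ball_subset_ball (min_le_right _ _) h4)
        y hy).trans (mul_le_mul_of_nonneg_right (le_max_right _ _) (norm_nonneg _))
  · intro t₁ _
    obtain ⟨j, h2⟩ := Function.ne_iff.1 (h0 t₁)
    have c1 : ContinuousAt Ψ t₁ := hc.continuousAt
    have c2 : ContinuousAt (fun t => ‖Ψ t‖ / ‖Ψ t j‖) t₁ :=
      c1.norm.div (continuousAt_pi.1 c1 j).norm (norm_ne_zero_iff.2 h2)
    obtain ⟨ε, hε, h5⟩ := Metric.eventually_nhds_iff_ball.1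
      (((continuousAt_pi.1 c1 j).eventually_ne h2).and
        (c2.eventually_lt_const (lt_add_one (‖Ψ t₁‖ / ‖Ψ t₁ j‖))))
    refine ⟨ball t₁ (ε / 2), mem_nhdsWithin_of_mem_nhds (ball_mem_nhds _ (half_pos hε)), ε / 2,
      ‖Ψ t₁‖ / ‖Ψ t₁ j‖ + 1, half_pos hε, by positivity, fun t₀ ht => ⟨j, fun t h6 y hy => ?_⟩⟩
    have h7 : t ∈ ball t₁ ε := by
      rw [mem_ball] at *
      linarith [dist_triangle t t₀ t₁]
    obtain ⟨h9, h10⟩ := h5 t h7
    obtain ⟨c, -, rfl⟩ := hy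
    rw [div_lt_iff₀ (norm_pos_iff.2 h9)] at h10
    rw [norm_smul, Pi.smul_apply, norm_smul, mul_left_comm]
    exact mul_le_mul_of_nonneg_left h10.le (norm_nonneg _)

end WanX

open WanX

theorem wan : WanStmt := by
  rintro a' N Ψ Λ C F ⟨a, b⟩ hΨ hL hC ⟨A, hA⟩ hF hc
  obtain ⟨R, hR, h0⟩ := Metric.eventually_nhds_iff_ball.1
    (hF.eventually_analyticAt.and (eventually_nhdsWithin_iff.1 hc))
  have hnz : ∀ p ∈ ball ((a, b) : ℂ × ℂ) R, p ≠ (a, b) → F p ≠ 0 := fun p hp e => by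
    obtain ⟨-, α, c, h1, h2⟩ := (h0 p hp).2 e
    rw [h2]
    exact smul_ne_zero h1 (hΨ.nz α)
  obtain ⟨RL, hRL⟩ := hΨ.per
  obtain ⟨η, K, hη, hK, hu⟩ := unif hΨ.hol.continuous hΨ.nz RL
  set ρ := R / 2 with hρ
  have ρ0 : 0 < ρ := half_pos hR
  have ρR : ρ < R := half_lt_self hR
  have hm : ∀ s ∈ ball a R, ∀ w ∈ closedBall b ρ, (s, w) ∈ ball ((a, b) : ℂ × ℂ) R :=
    fun s hs w hw => by
      rw [← ball_prod_same]
      exact ⟨hs, closedBall_subset_ball ρR hw⟩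
  set M := |A| / ρ + 1 with hM
  have M0 : 0 < M := by positivity
  set δ := min ρ (η / (2 * M)) with hδ
  have δ0 : 0 < δ := lt_min ρ0 (by positivity)
  have δρ : δ ≤ ρ := min_le_left _ _
  have δη : M * δ < η := by
    have h1 : δ ≤ η / (2 * M) := min_le_right _ _
    rw [le_div_iff₀ (by positivity)] at h1
    linarith
  obtain ⟨B, hB⟩ := ((isCompact_sphere a δ).prod
      (isCompact_closedBall b ρ)).exists_bound_of_continuousOn (f := fun p => ‖F p‖⁻¹)
      fun p hp => by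
    have h3 := hm p.1 (sphere_subset_ball (δρ.trans_lt ρR) hp.1) p.2 hp.2
    exact ((h0 p h3).1.continuousAt.norm.inv₀ (norm_ne_zero_iff.2 (hnz p h3 fun e =>
      ne_of_mem_sphere hp.1 δ0.ne' (congrArg Prod.fst e)))).continuousWithinAt
  have key : ∀ w ∈ closedBall b ρ, w ≠ b → 1 ≤ K * B * ‖F (a, w)‖ := fun w hw hwb => by
    have h1 : ∀ s ∈ ball a R, DifferentiableAt ℂ (fun s => F (s, w)) s :=
      fun s hs => (h0 _ (hm s hs w hw)).1.differentiableAt.comp s (by fun_prop)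
    have hne : ∀ s : ℂ, (s, w) ≠ (a, b) := fun s e => hwb (congrArg Prod.snd e)
    have h2 : ∀ s ∈ ball a R, F (s, w) ≠ 0 := fun s hs => hnz _ (hm s hs w hw) (hne s)
    obtain ⟨h, hh, hp⟩ := hL a R (fun s => F (s, w)) hR (fun t ht => by
      obtain ⟨r, r0, hr⟩ := Metric.isOpen_iff.1 isOpen_ball t ht
      exact ⟨_, r, r0, ⟨fun s hs => (h1 s (hr hs)).differentiableWithinAt,
        fun s hs => h2 s (hr hs)⟩, fun s _ => ⟨1, one_ne_zero, (one_smul _ _).symm⟩⟩)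
      fun s hs => ((h0 _ (hm s hs w hw)).2 (hne s)).2
    have h3 : ∀ s ∈ closedBall a ρ, ‖deriv h s‖ ≤ M := fun s hs => by
      have h4 : ball s ρ ⊆ ball a R := ball_subset_ball' (by
        have := mem_closedBall.1 hs
        linarith)
      have h5 := hA h s ρ ρ0 (hh.mono h4) fun u hu => by
        obtain ⟨c, c0, e⟩ := hp u (h4 hu)
        have := hC.2 _ ((h0 _ (hm u (h4 hu) w hw)).2 (hne u)).1 c⁻¹
        rwa [e, inv_smul_smul₀ c0] at this
      have h6 : ‖deriv h s‖ ≤ |A| / ρ := by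
        rw [le_div_iff₀ ρ0]
        linarith [le_abs_self A]
      linarith
    obtain ⟨l, hl, h4⟩ := hRL (h a)
    obtain ⟨j, hj⟩ := hu (h a - l) (mem_closedBall_zero_iff.2 h4)
    have hsub : closedBall a δ ⊆ ball a R := closedBall_subset_ball (δρ.trans_lt ρR)
    have h5 : ∀ s ∈ closedBall a δ, ‖F (s, w)‖ ≤ K * ‖F (s, w) j‖ := fun s hs => by
      refine hj (h s - l) ?_ _ (pp_trans (hp s (hsub hs)) ((hΨ.par _ _).2 (by simpa using hl)))
      have h6 := (convex_closedBall a ρ).norm_image_sub_le_of_norm_deriv_le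
        (fun x hx => hh.differentiableAt (isOpen_ball.mem_nhds (closedBall_subset_ball ρR hx))) h3
        (mem_closedBall_self ρ0.le) (closedBall_subset_closedBall δρ hs)
      rw [mem_ball, dist_eq_norm, sub_sub_sub_cancel_right]
      exact (h6.trans (mul_le_mul_of_nonneg_left (mem_closedBall_iff_norm.1 hs) M0.le)).trans_lt δη
    have h6 : ∀ s ∈ closedBall a δ, 0 < ‖F (s, w) j‖ := fun s hs =>
      (mul_pos_iff_of_pos_left hK).1 ((norm_pos_iff.2 (h2 s (hsub hs))).trans_le (h5 s hs))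
    have h7 := I4.WanX.maxp (f := fun s => (F (s, w) j)⁻¹) (A := K * B) δ0
      (fun s hs => (differentiableAt_pi.1 (h1 s (hsub hs)) j).inv
        (norm_pos_iff.1 (h6 s hs))) (fun s hs => by
        have hs' := sphere_subset_closedBall hs
        have h8 : ‖F (s, w)‖⁻¹ ≤ B := (le_abs_self _).trans (hB (s, w) ⟨hs, hw⟩)
        have h9 := norm_pos_iff.2 (h2 s (hsub hs'))
        rw [inv_le_iff_one_le_mul₀ h9] at h8
        rw [norm_inv, inv_le_iff_one_le_mul₀ (h6 s hs')]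
        have h10 : 0 ≤ B := ((mul_pos_iff_of_pos_right h9).1 (one_pos.trans_le h8)).le
        nlinarith [mul_le_mul_of_nonneg_left (h5 s hs') h10]) a (mem_closedBall_self δ0.le)
    have h8 := h6 a (mem_closedBall_self δ0.le)
    rw [norm_inv, inv_le_iff_one_le_mul₀ h8] at h7
    exact h7.trans (mul_le_mul_of_nonneg_left (norm_le_pi_norm _ j)
      ((mul_pos_iff_of_pos_right h8).1 (one_pos.trans_le h7)).le)
  have c1 : ContinuousAt (fun w => K * B * ‖F (a, w)‖) b :=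
    continuousAt_const.mul (hF.continuousAt.comp_of_eq (f := fun w : ℂ => (a, w))
      (by fun_prop) rfl).norm
  have h1 : 1 ≤ K * B * ‖F (a, b)‖ := ge_of_tendsto (x := 𝓝[≠] b)
    (c1.tendsto.mono_left nhdsWithin_le_nhds) (by
      filter_upwards [mem_nhdsWithin_of_mem_nhds (closedBall_mem_nhds b ρ0), self_mem_nhdsWithin]
        with w h2 h3 using key w h2 h3)
  intro e
  rw [e, norm_zero, mul_zero] at h1
  exact absurd h1 (by norm_num)

end Pool.Agent.MP_c69980_ag.J1
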