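import Pool.Agent.MP_c69980_ag.J1.TopA
import Pool.Agent.MP_c69980_ag.J1.Bas
import Pool.Agent.MP_c69980_ag.J1.Bro
import Pool.Agent.MP_c69980_ag.J1.Cl
import Pool.Agent.MP_c69980_ag.J1.Dep
import Pool.Agent.MP_c69980_ag.J1.Ell
import Pool.Agent.MP_c69980_ag.J1.Ext
import Pool.Agent.MP_c69980_ag.J1.FinZ
import Pool.Agent.MP_c69980_ag.J1.Lat
import Pool.Agent.MP_c69980_ag.J1.Lft
import Pool.Agent.MP_c69980_ag.J1.LocA
import Pool.Agent.MP_c69980_ag.J1.LocB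
import Pool.Agent.MP_c69980_ag.J1.Seg
import Pool.Agent.MP_c69980_ag.J1.Tm
import Pool.Agent.MP_c69980_ag.J1.UnitB
import Pool.Agent.MP_c69980_ag.J1.Val
import Pool.Agent.MP_c69980_ag.J1.Wan
import Pool.Agent.MP_c69980_ag.I4.Main
import Pool.Agent.MP_c69980_ag.I4B.Main
import Pool.Agent.MP_c69980_ag.H43.MainB

/-!
Surfaces of log-general type with a nonconstant morphism to a semi-abelian variety.
-/

set_option autoImplicit false

namespace Pool.Agent.MP_c69980_ag.J1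

open MvPolynomial H60 H4

theorem rows : Rows := ⟨prp, lft, bro, lat finZ bas, ell, wan, ext, val, tm finZ, locA, locB⟩

lemma snc {n : ℕ} {U : Set (PS n)} {K : Type} [Field K] [Algebra ℂ K] {z : Fin n → K}
    (h : LogGT U z) : H43.Snc U z := by
  obtain ⟨n', W, z', π, k, m, E, h, a1, a2, a3, -, -, -, -, a4⟩ := h
  refine ⟨n', W, z', π, k, a1, a2, a3, fun x hx => ?_⟩
  obtain ⟨b1, b2, b3, t, r, g, d, c1, c2, c3, c4, c5, -⟩ := a4 x hx
  exact ⟨b1, b2, b3, t, r, g, d, c1, c2, c3, c4, c5⟩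

theorem all {t a M n : ℕ} {w : Fin M → Option (Fin t)} {ϑ : (Fin a → ℂ) → Fin M → ℂ}
    (hG : H43.SemiAb w ϑ) {U : Set (PS n)} (hU : IsVar U) {K : Type} [Field K] [Algebra ℂ K]
    {z : Fin n → K} (hz : GenPt U z) (h2 : Algebra.trdeg ℂ K = 2) (h4 : LogGT U z) {u : Fin M → K}
    (hu : ∀ (F : PR M) (d : ℕ), F.IsHomogeneous d → (∀ s α, eval (H43.Th w ϑ s α) F = 0) →
      aeval u F = 0)
    (hr : ∀ x ∈ U, ∀ o, ∃ b, w b = o ∧ u b ≠ 0 ∧ ∀ c, u c / u b ∈ locRing z x)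
    (hc : ∃ c b, ∀ s : ℂ, u c / u b ≠ algebraMap ℂ K s) :
    PseudoKob U ∧ PseudoBrody U ∧ H43.PseudoFin U ∧ PseudoBdd U := by
  by_cases hf : Algebra.IsAlgebraic (H43.K0 u) K
  · have h := H43.tfae hG ⟨hU, hz, fun F d a b => hu F d a fun s α => by
      simpa [H43.TH] using b (Fin.append s α), hr, hf⟩ (snc h4)
    exact ⟨(h.out 3 0).1 h4, (h.out 3 1).1 h4, (h.out 3 2).1 h4, (h.out 3 4).1 h4⟩
  by_cases nc : I4.NC (sg w u)
  · have g := (H43.aGeo _ _ _ w ϑ hG).1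
    obtain ⟨Λ, av⟩ := seg _ _ _ w ϑ hG g (H43.sDisc _ _ _ w _ g).1
    exact curve rows I4.mainE hU hz h2 h4 av (cl _ _ _ w ϑ K u hG hu) nc (dep _ _ w K u h2 hf)
  · obtain ⟨v, v1, v2⟩ := unitB _ _ _ w U K z u (I4.gen_ne hz) hr hc nc
    exact I4B.all5 hU hz h2 h4 v1 v2

end Pool.Agent.MP_c69980_ag.J1
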