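import Pool.Agent.MP_c69980_ag.J1.Fin
import Pool.Agent.MP_c69980_ag.I4.MainA

/-!
Surfaces with a nonconstant rational map to a curve in an abelian variety.
-/

set_option autoImplicit false

namespace Pool.Agent.MP_c69980_ag.J1

open MvPolynomial H60 H4 E1

/-- All the rows. -/
structure Rows : Prop where
  prp : PrpStmt
  lft : LftStmt
  bro : BroStmt
  lat : LatStmt
  ell : EllStmt
  wan : WanStmt
  ext : ExtStmt
  val : ValStmt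
  tm : TmStmt
  locA : LocAStmt
  locB : LocBStmt

theorem curve (r : Rows) (hM : E2.MainStmt) {n a N : ℕ} {U : Set (PS n)} (hU : IsVar U) {K : Type}
    [Field K] [Algebra ℂ K] {z : Fin n → K} (hz : GenPt U z) (h2 : Algebra.trdeg ℂ K = 2)
    (h4 : LogGT U z) {Ψ : (Fin a → ℂ) → V N} {Λ : AddSubgroup (Fin a → ℂ)} (av : AV Ψ Λ)
    {ξ : Fin N → K} (cl : ClA Ψ ξ) (nc : I4.NC ξ) (dp : Dep1 ξ) :
    PseudoKob U ∧ PseudoBrody U ∧ H43.PseudoFin U ∧ PseudoBdd U := by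
  obtain ⟨n', W, z', π, k, m, E, h, ld⟩ := h4
  obtain rfl : k = 2 := Nat.cast_injective (R := Cardinal) (ld.2.2.1.symm.trans h2)
  replace ld : LDat U z W z' π m E h := ld
  have sm := I4.smo_of ld
  have pr := r.prp _ _ _ _ av
  have lf := r.lft _ _ _ _ av pr
  rcases r.bro _ _ _ _ _ av (cn0 ξ) with ⟨α₀, v, v0, hv⟩ | hy
  · obtain ⟨L, hL⟩ := r.lat _ _ _ _ K ξ α₀ v av dp v0 hv
    obtain ⟨η, x1, x3⟩ := r.ell N L (fun s => Ψ (α₀ + s • v)) K ξ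
      (av.hol.comp (by fun_prop)) (fun s => av.nz _) (fun s s' => by
        rw [hL, sub_smul, ← add_sub_add_left_eq_sub (s • v) (s' • v) α₀, ← av.par]
        exact ⟨fun ⟨l, e⟩ => ⟨l, fun q => av.nz _ (by rw [e, q, zero_smul]), e⟩,
          fun ⟨l, _, e⟩ => ⟨l, e⟩⟩) hv dp
    have key : ∀ p : PS 3, eval p.rep (I4.cub L) = 0 → p ∈ Ell L := fun p q => by
      obtain ⟨_, a⟩ := ((I4.sur L).2 _).2 ⟨p.rep_nonzero, q⟩
      rwa [p.mk_rep] at a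
    obtain ⟨u', u1, u2, u3⟩ := I4.xiW n' 3 W K z' η ld.2.1 x1 (I4.ext I4.sur I4.wan I4.walg n' W K
      z' L η ld.2.1 (I4.rg2 ld) (wc n' W sm) (fun q => x1 ⟨0, 0, fun i => by simp [q]⟩) x3)
    obtain ⟨T, e, t1, t2, t3⟩ := hM K n' ⟨W, _, z', E, m, h, L, u', sm, fun _ q => q.1,
      I4.ld_open ld, u1, fun x => key _ (u3 _ _ (I4.sur L).1 x3 x), u2⟩
    exact I4.fin hU hz ld t1 t2 t3
  · obtain ⟨Y, hY⟩ := r.val _ _ W K z' ξ ld.2.1 (r.ext _ _ W K z' ξ ld.2.1 (I4.rg2 ld) (wc n' W sm)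
      (fun q => nc ⟨0, 0, fun i => by simp [q]⟩) fun F q h1 h2 =>
        r.wan _ _ Ψ Λ _ F q av lf (cn0 ξ) hy h1 (h2.mono fun p hp => ⟨hp.2, cl _ hp.1 hp.2⟩))
    obtain ⟨ℓ, b, b0, t1, t2⟩ := r.tm _ _ W K z' ξ Y ld.2.1 hY nc dp
    exact fin hU hz ld fun j => r.locB K n' ⟨W, _, z', E, m, h, tq ξ ℓ b, sm, fun _ q => q.1,
      I4.ld_open ld, t1, t2⟩ j (r.locA _ _ _ Ψ Λ W K z' ξ Y ℓ b av pr lf hy cl ld.2.1 hY b0)

end Pool.Agent.MP_c69980_ag.J1
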